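import Mathlib
import Pool.Agent.H906R3.YM.Conc
import Pool.Agent.W793.YM.Inf
import Pool.Agent.TH618.YM.Cartan
import Pool.Agent.TH618.YM.Pot
import Pool.Agent.Q204.YM.Pot

/-!
# Lattice Yang-Mills theory: the perimeter law up to the scale `β` and the string tension

Wilson's lattice gauge theory in dimension `d ≥ 4` with gauge group an arbitrary closed subgroup `G`
of `U(N)` at the inverse coupling `β`. There is a constant `C`, which depends only on `N` and `d`,
such that in all volumes of even side and for all `β > 0` the rectangular Wilson loops satisfy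
`1 - C (R + T) / β ≤ ⟨(1/N) Re tr U(R × T)⟩`, and such that for `β ≥ C` in every infinite volume limit
`⟨(1/N) Re tr U(R × T)⟩ ≥ exp (- C ((R + T) / β + R T / β ^ 2))` for all sides `R` and `T`. So the
static potential is at most `C (1 / β + R / β ^ 2)`, and the string tension is at most `C / β ^ 2`.
-/

open MeasureTheory Matrix Filter
open scoped Matrix.Norms.Frobenius Topology ContDiff

namespace Pool.Agent.Results.MP_7f377f_mp.PerimeterLawToScaleBeta

set_option linter.unusedSectionVars false

noncomputable section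

/-- Complex `N × N` matrices. -/
abbrev Mt (N : ℕ) := Matrix (Fin N) (Fin N) ℂ

/-- The unitary group `U(N)`. -/
abbrev UU (N : ℕ) := Matrix.unitaryGroup (Fin N) ℂ

/-- The matrix of an element of a subgroup of `U(N)`. -/
def mt {N : ℕ} {G : Subgroup (UU N)} (g : G) : Mt N := ((g : UU N) : Mt N)

/-- Links of the periodic lattice `(ℤ/l)^d`: base point and direction. -/
abbrev Link (d l : ℕ) := (Fin d → ZMod l) × Fin d

/-- Links of the lattice `ℤ^d`: base point and direction. -/
abbrev LinkZ (d : ℕ) := (Fin d → ℤ) × Fin d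

section

variable {N n d l : ℕ} {G : Subgroup (UU N)}

/-- The product of the link variables around the plaquette at `x` in the directions `i`, `j`. -/
def plaq (U : Link d l → G) (x : Fin d → ZMod l) (i j : Fin d) : G :=
  U (x, i) * U (x + Pi.single i 1, j) * (U (x + Pi.single j 1, i))⁻¹ * (U (x, j))⁻¹

/-- The Wilson action `∑_p Re tr (1 - U_p)`, the sum over the plaquettes. -/
def action [NeZero l] (U : Link d l → G) : ℝ :=
  ∑ x : Fin d → ZMod l, ∑ i : Fin d, ∑ j : Fin d,
    if i < j then (trace (1 - mt (plaq U x i j))).re else 0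

/-- The periodic extension of a configuration. -/
def per (U : Link d l → G) : LinkZ d → G := fun e => U (fun i => (e.1 i : ZMod l), e.2)

/-- The expectation of `F` in the lattice Yang-Mills theory on `(ℤ/l)^d`, `μ` being the Haar
measure. -/
def expect (l : ℕ) [NeZero l] [MeasurableSpace G] (μ : Measure G) (β : ℝ)
    (F : (LinkZ d → G) → ℝ) : ℝ :=
  (∫ U : Link d l → G, F (per U) * Real.exp (-(β * action U)) ∂(Measure.pi fun _ => μ)) /
    ∫ U : Link d l → G, Real.exp (-(β * action U)) ∂(Measure.pi fun _ => μ)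

/-- `ν` is an infinite volume limit (weak limit along a subsequence) of the theories on the tori of
even side at inverse coupling `β`. -/
structure IsInfVol [MeasurableSpace G] (μ : Measure G) (β : ℝ)
    (ν : Measure (LinkZ d → G)) : Prop where
  prob : IsProbabilityMeasure ν
  lim : ∃ s : ℕ → ℕ, Tendsto s atTop atTop ∧ ∀ F : (LinkZ d → G) → ℝ, Continuous F →
    Tendsto (fun j => expect (2 * (s j + 1)) μ β F) atTop (𝓝 (∫ V, F V ∂ν))

/-- The product of the link variables along the path of `k` steps in the direction `i` from `x`. -/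
def line (V : LinkZ d → G) (i : Fin d) : ℕ → (Fin d → ℤ) → G
  | 0, _ => 1
  | k + 1, x => V (x, i) * line V i k (x + Pi.single i 1)

/-- The product of the link variables around the rectangle with corner `x` and with the sides `R`
in the direction `i` and `T` in the direction `j`. -/
def loop (V : LinkZ d → G) (x : Fin d → ℤ) (i j : Fin d) (R T : ℕ) : G :=
  line V i R x * line V j T (x + Pi.single i (R : ℤ)) *
    (line V i R (x + Pi.single j (T : ℤ)))⁻¹ * (line V j T x)⁻¹

/-- The Wilson loop: the expectation of `(1/N) Re tr` of the product around the rectangle. -/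
def wilson [MeasurableSpace G] (ν : Measure (LinkZ d → G)) (x : Fin d → ℤ) (i j : Fin d)
    (R T : ℕ) : ℝ := ∫ V, (trace (mt (loop V x i j R T))).re / N ∂ν

end

open Pool.Agent.H906R3 Pool.Agent.W793 Pool.Agent.TH618

variable {N n d l : ℕ} {G : Subgroup (UU N)}

/-- A Haar probability measure is invariant under right multiplications. -/
lemma right_inv {H : Type*} [Group H] [TopologicalSpace H] [IsTopologicalGroup H]
    [CompactSpace H] [MeasurableSpace H] [BorelSpace H] (μ : Measure H)
    [IsProbabilityMeasure μ] [μ.IsHaarMeasure] : μ.IsMulRightInvariant := by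
  refine ⟨fun g => ?_⟩
  have h1 : IsProbabilityMeasure (Measure.map (fun x => x * g) μ) :=
    Measure.isProbabilityMeasure_map (measurable_mul_const g).aemeasurable
  exact Measure.isHaarMeasure_eq_of_isProbabilityMeasure _ _

/-- A Haar probability measure is invariant under the inversion. -/
lemma inv_inv' {H : Type*} [Group H] [TopologicalSpace H] [IsTopologicalGroup H]
    [CompactSpace H] [MeasurableSpace H] [BorelSpace H] (μ : Measure H)
    [IsProbabilityMeasure μ] [μ.IsHaarMeasure] : μ.IsInvInvariant := by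
  have hr := right_inv μ
  refine ⟨?_⟩
  have h1 : IsProbabilityMeasure μ.inv :=
    Measure.isProbabilityMeasure_map measurable_inv.aemeasurable
  have h2 : μ.inv.IsMulLeftInvariant := inferInstance
  have h3 : μ.inv.IsHaarMeasure :=
    Measure.isHaarMeasure_of_isCompact_nonempty_interior μ.inv Set.univ isCompact_univ
      (by simp) (by simp) (by simp)
  exact Measure.isHaarMeasure_eq_of_isProbabilityMeasure _ _

lemma action_eq [NeZero l] (B : YM.Frame G n) (U : Link d l → G) :
    action U = YM.act B.toLD U := rfl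

section bridge

variable [CompactSpace G] [SecondCountableTopology G] [MeasurableSpace G] [BorelSpace G]
  (μ : Measure G) [IsProbabilityMeasure μ] [μ.IsHaarMeasure] (B : YM.Frame G n)

lemma expect_eq [NeZero l] (β : ℝ) (F : (LinkZ d → G) → ℝ) : expect l μ β F =
    YM.EX μ B.toLD β (fun U : YM.Ed d l → G => F (YM.lf U)) := by
  unfold expect YM.EX YM.Zt
  simp only [one_mul]
  rfl

include B in
lemma action_cont [NeZero l] : Continuous (action : (Link d l → G) → ℝ) :=
  YM.act_cont (L := B.toLD)

include B in
/-- existence of infinite volume limits -/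
lemma exists_infVol (β : ℝ) : ∃ ν : Measure (LinkZ d → G), IsInfVol μ β ν := by
  have hP : ∀ j : ℕ, ∃ P : ProbabilityMeasure (LinkZ d → G),
      ∀ F : (LinkZ d → G) → ℝ, Continuous F →
        ∫ V, F V ∂(P : Measure (LinkZ d → G)) = expect (2 * (j + 1)) μ β F := by
    intro j
    have hper : Continuous (per : (Link d (2 * (j + 1)) → G) → LinkZ d → G) :=
      continuous_pi fun e => continuous_apply _
    have hexp : Continuous fun U : Link d (2 * (j + 1)) → G =>
        Real.exp (-(β * action U)) :=
      Real.continuous_exp.comp (continuous_const.mul (action_cont B)).neg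
    have hint : Integrable (fun U : Link d (2 * (j + 1)) → G =>
        Real.exp (-(β * action U))) (Measure.pi fun _ => μ) :=
      hexp.integrable_of_hasCompactSupport (HasCompactSupport.of_compactSpace _)
    have h1 := isProbabilityMeasure_tilted (f := fun U : Link d (2 * (j + 1)) → G =>
      -(β * action U)) hint
    refine ⟨⟨((Measure.pi fun _ => μ).tilted fun U : Link d (2 * (j + 1)) → G =>
      -(β * action U)).map per, Measure.isProbabilityMeasure_map hper.aemeasurable⟩,
      fun F hF => ?_⟩
    show ∫ V, F V ∂(((Measure.pi fun _ => μ).tilted fun U : Link d (2 * (j + 1)) → G =>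
      -(β * action U)).map per) = _
    rw [integral_map hper.aemeasurable hF.aestronglyMeasurable, integral_tilted]
    unfold expect
    rw [← integral_div]
    refine integral_congr_ae (Filter.Eventually.of_forall fun U => ?_)
    simp only [smul_eq_mul]
    ring
  choose P hP using hP
  obtain ⟨ν, s, hs, hlim⟩ := CompactSpace.tendsto_subseq P
  refine ⟨ν, ⟨inferInstance, s, hs.tendsto_atTop, fun F hF => ?_⟩⟩
  have h1 := (ProbabilityMeasure.tendsto_iff_forall_integral_tendsto.1 hlim)
    (BoundedContinuousFunction.mkOfCompact ⟨F, hF⟩)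
  simp only [Function.comp_apply, BoundedContinuousFunction.mkOfCompact_apply,
    ContinuousMap.coe_mk] at h1
  simpa only [hP _ F hF] using h1

/-- straight lines in a periodic configuration -/
lemma line_lf (U : YM.Ed d l → G) (i : Fin d) (k : ℕ) (x : Fin d → ℤ) :
    line (YM.lf U) i k x = YM.ln U i k (YM.zt l x) := by
  induction k generalizing x with
  | zero => rfl
  | succ k ih =>
    rw [YM.ln_succ]
    show YM.lf U (x, i) * line (YM.lf U) i k (x + Pi.single i 1) = _
    rw [ih, YM.zt_add]
    rfl

lemma zt_nsmul (x : Fin d → ℤ) (i : Fin d) (k : ℕ) :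
    YM.zt l (x + Pi.single i (k : ℤ)) = YM.zt l x + k • YM.eT i := by
  funext j
  unfold YM.zt YM.eT
  by_cases h : j = i
  · subst h; simp
  · simp [h]

lemma loop_lf (U : YM.Ed d l → G) (x : Fin d → ℤ) (i j : Fin d) (R T : ℕ) :
    loop (YM.lf U) x i j R T = YM.rect U (YM.zt l x) i j R T := by
  unfold loop YM.rect
  rw [line_lf, line_lf, line_lf, line_lf, zt_nsmul, zt_nsmul]

lemma line_cont (i : Fin d) (k : ℕ) (x : Fin d → ℤ) :
    Continuous fun V : LinkZ d → G => line V i k x := by
  induction k generalizing x with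
  | zero => exact continuous_const
  | succ k ih => exact (continuous_apply _).mul (ih _)

lemma loop_cont (x : Fin d → ℤ) (i j : Fin d) (R T : ℕ) :
    Continuous fun V : LinkZ d → G => (trace (mt (loop V x i j R T))).re / N := by
  have h1 : Continuous fun V : LinkZ d → G => loop V x i j R T :=
    (((line_cont _ _ _).mul (line_cont _ _ _)).mul (line_cont _ _ _).inv).mul (line_cont _ _ _).inv
  have h2 : Continuous (mt : G → Mt N) := continuous_subtype_val.comp continuous_subtype_val
  exact (Complex.continuous_re.comp (h2.comp h1).matrix_trace).div_const _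

lemma expect_loop [NeZero l] (β : ℝ) (x : Fin d → ℤ) (i j : Fin d) (R T : ℕ) :
    expect l μ β (fun V : LinkZ d → G => (trace (mt (loop V x i j R T))).re / N) =
      YM.EX μ B.toLD β (fun U : YM.Ed d l → G => YM.rt B.toLD (YM.rect U 0 i j R T)) / N := by
  have := right_inv μ
  have := inv_inv' μ
  rw [expect_eq μ B]
  have h1 : (fun U : YM.Ed d l → G => (trace (mt (loop (YM.lf U) x i j R T))).re / N) =
      fun U => (1 / (N : ℝ)) * YM.rt B.toLD (YM.rect (YM.tr (YM.zt l x) U) 0 i j R T) := by
    funext U
    rw [loop_lf, YM.rect_tr, zero_add, div_eq_mul_one_div, mul_comm]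
    rfl
  rw [h1, YM.EX_smul, YM.EX_tr μ (YM.zt l x)
    (fun U : YM.Ed d l → G => YM.rt B.toLD (YM.rect U 0 i j R T))]
  ring

end bridge

theorem result {N d : ℕ} (hN : 1 ≤ N) (hd : 4 ≤ d) :
    ∃ C : ℝ, 0 < C ∧ ∀ G : Subgroup (UU N), IsClosed (G : Set (UU N)) →
      ∀ [MeasurableSpace G] [BorelSpace G] (μ : Measure G) [IsProbabilityMeasure μ]
        [μ.IsHaarMeasure] (β : ℝ), 0 < β →
      (∀ m R T : ℕ, 1 ≤ m → R ≤ m → T ≤ m → ∀ (x : Fin d → ℤ) (i j : Fin d), i ≠ j →
        1 - C * (R + T) / β ≤ expect (2 * (m + 1)) μ β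
          (fun V : LinkZ d → G => (trace (mt (loop V x i j R T))).re / N)) ∧
      (C ≤ β →
        (∀ ν : Measure (LinkZ d → G), IsInfVol μ β ν → ∀ i j : Fin d, i ≠ j →
          (∀ (x : Fin d → ℤ) (R T : ℕ),
            Real.exp (-(C * ((R + T) / β + R * T / β ^ 2))) ≤ wilson ν x i j R T) ∧
          ∃ (P : ℕ → ℝ) (σ : ℝ),
            (∀ (x : Fin d → ℤ) (R : ℕ), Tendsto
              (fun T : ℕ => -Real.log (wilson ν x i j R T) / T) atTop (𝓝 (P R))) ∧
            Tendsto (fun R : ℕ => P R / R) atTop (𝓝 σ) ∧
            (∀ R : ℕ, P R ≤ C * (1 / β + R / β ^ 2)) ∧ 0 ≤ σ ∧ σ ≤ C / β ^ 2) ∧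
        ∃ ν : Measure (LinkZ d → G), IsInfVol μ β ν) := by
  obtain ⟨D, hD⟩ : ∃ D : ℝ, D = Q204.PL.Cd d * N := ⟨_, rfl⟩
  have hN1 : (1 : ℝ) ≤ N := by exact_mod_cast hN
  have hD1 : 1 ≤ D := by
    rw [hD]; exact one_le_mul_of_one_le_of_one_le (Q204.PL.Cd_ge d) hN1
  have hDD : D ≤ D ^ 2 := by nlinarith
  refine ⟨96 * D ^ 2, by positivity, ?_⟩
  intro G hG _ _ μ _ _ β hβ
  have : CompactSpace G := by
    have h1 : IsCompact (G : Set (UU N)) := hG.isCompact
    exact isCompact_iff_compactSpace.1 h1
  have h00 : SecondCountableTopology (UU N) := TopologicalSpace.Subtype.secondCountableTopology _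
  have : SecondCountableTopology G := TopologicalSpace.Subtype.secondCountableTopology _
  have := right_inv μ
  have := inv_inv' μ
  obtain ⟨n, ⟨B⟩⟩ := YM.exists_frame hG
  refine ⟨fun m R T hm hR hT x i j hij => ?_, fun hCβ => ⟨fun ν hν i j hij => ?_,
    exists_infVol μ B β⟩⟩
  · rw [expect_loop μ B β x i j R T]
    have h1 := Q204.PL.perim μ (L := B.toLD) (m := m + 1) (by omega) hN hd hβ hij (R := R)
      (T := T) (by omega) (by omega)
    rw [← hD] at h1
    have h2 : D * ((R : ℝ) + T) / β ≤ 96 * D ^ 2 * (R + T) / β := by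
      refine div_le_div_of_nonneg_right ?_ hβ.le
      have h3 : (0 : ℝ) ≤ R + T := by positivity
      exact mul_le_mul_of_nonneg_right (by linarith) h3
    have h3 : YM.EX μ B.toLD β (fun U : YM.Ed d (2 * (m + 1)) → G =>
        YM.rt B.toLD (YM.rect U 0 i j R T)) / N = YM.wR2 μ B.toLD (m + 1) β i j R T := rfl
    rw [h3]
    linarith
  · obtain ⟨s, hs, hlim⟩ := hν.lim
    have hw : ∀ (x : Fin d → ℤ) (R T : ℕ),
        Tendsto (fun k => YM.wR2 μ B.toLD (s k + 1) β i j R T) atTop (𝓝 (wilson ν x i j R T)) := by
      intro x R T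
      refine (hlim _ (loop_cont x i j R T)).congr fun k => ?_
      exact expect_loop μ B β x i j R T
    have hx : ∀ (x : Fin d → ℤ) (R T : ℕ), wilson ν x i j R T = wilson ν 0 i j R T :=
      fun x R T => tendsto_nhds_unique (hw x R T) (hw 0 R T)
    obtain ⟨h1, P, σ, h2, h3, h4, h5, h6⟩ := Q204.PL.pot_two μ (L := B.toLD) hN hd (β := β)
      (by rw [← hD]; linarith) hij (w := fun R T => wilson ν 0 i j R T) hs
      (fun R T => hw 0 R T)
    rw [← hD] at h1 h4 h6
    refine ⟨fun x R T => ?_, P, σ, fun x R => ?_, h3, h4, h5, h6⟩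
    · rw [hx]
      refine le_trans (Real.exp_le_exp.2 (neg_le_neg ?_)) (h1 R T)
      have e1 : 0 ≤ ((R : ℝ) + T) / β + R * T / β ^ 2 := by positivity
      exact mul_le_mul_of_nonneg_right (by nlinarith [sq_nonneg D]) e1
    · simp only [hx x]
      exact h2 R

end

end Pool.Agent.Results.MP_7f377f_mp.PerimeterLawToScaleBeta
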