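import Mathlib
import Pool.Agent.H906R3.YM.Conc
import Pool.Agent.W793.YM.Inf
import Pool.Agent.TH618.YM.Cartan
import Pool.Agent.Q2.TH.Main

/-!
# Lattice Yang-Mills theory: 't Hooft loops at weak coupling

Wilson's lattice gauge theory in dimension `d ≥ 4` with gauge group an arbitrary closed subgroup `G`
of `U(N)` at the inverse coupling `β ≥ 2`. Let `z` be a central element of `G` which lies on a
one-parameter subgroup. The 't Hooft operator `B(S)` of a box `S` of codimension two multiplies the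
plaquette variables dual to `S` by `z` in the Boltzmann weight (in dimension four this is the
't Hooft loop along the boundary of the rectangle `S`). Trivially `⟨B(S)⟩ ≥ exp (- c β |S|)`. Here
we prove `⟨B(S)⟩ ≥ exp (- C (log² β |S| + β log β |∂S|))` for all boxes, on all large tori and in
all infinite volume limits, so the dual string tension is at most `C log² β`. For `G = SU(N)` this
covers all elements `z` of the centre.
-/

open MeasureTheory Matrix Filter
open scoped Matrix.Norms.Frobenius Topology ContDiff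

namespace Pool.Agent.Results.MP_7f377f_mp.THooftLoop

set_option linter.unusedSectionVars false

noncomputable section

/-- Complex `N × N` matrices. -/
abbrev Mt (N : ℕ) := Matrix (Fin N) (Fin N) ℂ

/-- The unitary group `U(N)`. -/
abbrev UU (N : ℕ) := Matrix.unitaryGroup (Fin N) ℂ

/-- The matrix of an element of a subgroup of `U(N)`. -/
def mt {N : ℕ} {G : Subgroup (UU N)} (g : G) : Mt N := ((g : UU N) : Mt N)

/-- Links of the periodic lattice `(ℤ/l)^d`: base point and direction. -/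
abbrev Link (d l : ℕ) := (Fin d → ZMod l) × Fin d

/-- Links of the lattice `ℤ^d`: base point and direction. -/
abbrev LinkZ (d : ℕ) := (Fin d → ℤ) × Fin d

section

variable {N n d l : ℕ} {G : Subgroup (UU N)}

/-- The product of the link variables around the plaquette at `x` in the directions `i`, `j`. -/
def plaq (U : Link d l → G) (x : Fin d → ZMod l) (i j : Fin d) : G :=
  U (x, i) * U (x + Pi.single i 1, j) * (U (x + Pi.single j 1, i))⁻¹ * (U (x, j))⁻¹

/-- The Wilson action `∑_p Re tr (1 - U_p)`, the sum over the plaquettes. -/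
def action [NeZero l] (U : Link d l → G) : ℝ :=
  ∑ x : Fin d → ZMod l, ∑ i : Fin d, ∑ j : Fin d,
    if i < j then (trace (1 - mt (plaq U x i j))).re else 0

/-- The periodic extension of a configuration. -/
def per (U : Link d l → G) : LinkZ d → G := fun e => U (fun i => (e.1 i : ZMod l), e.2)

/-- The expectation of `F` in the lattice Yang-Mills theory on `(ℤ/l)^d`, `μ` being the Haar
measure. -/
def expect (l : ℕ) [NeZero l] [MeasurableSpace G] (μ : Measure G) (β : ℝ)
    (F : (LinkZ d → G) → ℝ) : ℝ :=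
  (∫ U : Link d l → G, F (per U) * Real.exp (-(β * action U)) ∂(Measure.pi fun _ => μ)) /
    ∫ U : Link d l → G, Real.exp (-(β * action U)) ∂(Measure.pi fun _ => μ)

/-- `ν` is an infinite volume limit (weak limit along a subsequence) of the theories on the tori of
even side at inverse coupling `β`. -/
structure IsInfVol [MeasurableSpace G] (μ : Measure G) (β : ℝ)
    (ν : Measure (LinkZ d → G)) : Prop where
  prob : IsProbabilityMeasure ν
  lim : ∃ s : ℕ → ℕ, Tendsto s atTop atTop ∧ ∀ F : (LinkZ d → G) → ℝ, Continuous F →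
    Tendsto (fun j => expect (2 * (s j + 1)) μ β F) atTop (𝓝 (∫ V, F V ∂ν))

/-- The product of the link variables around the plaquette at `x` of `ℤ^d` in the directions
`i`, `j`. -/
def plaqZ (V : LinkZ d → G) (x : Fin d → ℤ) (i j : Fin d) : G :=
  V (x, i) * V (x + Pi.single i 1, j) * (V (x + Pi.single j 1, i))⁻¹ * (V (x, j))⁻¹

/-- The sheet: the points `x` with `x i = x j = 0` and `0 ≤ x k < R k` for all other `k`. -/
def sheet (i j : Fin d) (R : Fin d → ℕ) : Finset (Fin d → ℤ) :=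
  Fintype.piFinset fun k => if k = i ∨ k = j then {0} else Finset.Ico 0 (R k : ℤ)

/-- The 't Hooft operator of the sheet, translated by `a`: the ratio
`exp (β ∑_x Re tr (z U_p - U_p))` of the Boltzmann weights with and without the central element `z`
inserted in the plaquettes `p` at the points `a + x` of the sheet in the plane of the directions
`i`, `j`. -/
def thooft (β : ℝ) (z : G) (V : LinkZ d → G) (a : Fin d → ℤ) (i j : Fin d) (R : Fin d → ℕ) : ℝ :=
  Real.exp (β * ∑ x ∈ sheet i j R, (trace ((mt z - 1) * mt (plaqZ V (a + x) i j))).re)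

/-- The area of the sheet. -/
def area (i j : Fin d) (R : Fin d → ℕ) : ℝ :=
  ∏ k ∈ Finset.univ.filter (fun k => k ≠ i ∧ k ≠ j), (R k : ℝ)

/-- The size of the boundary of the sheet. -/
def bdry (i j : Fin d) (R : Fin d → ℕ) : ℝ :=
  ∑ k ∈ Finset.univ.filter (fun k => k ≠ i ∧ k ≠ j),
    ∏ k' ∈ (Finset.univ.filter (fun k => k ≠ i ∧ k ≠ j)).erase k, (R k' : ℝ)

/-- `log² β |S| + β log β |∂S|` for the sheet `S`. -/
def cst (β : ℝ) (i j : Fin d) (R : Fin d → ℕ) : ℝ :=
  Real.log β ^ 2 * area i j R + β * Real.log β * bdry i j R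

/-- The expectation of the 't Hooft operator on the torus of side `l`. -/
def hooftT (l : ℕ) [NeZero l] [MeasurableSpace G] (μ : Measure G) (β : ℝ) (z : G)
    (a : Fin d → ℤ) (i j : Fin d) (R : Fin d → ℕ) : ℝ :=
  expect l μ β (fun V : LinkZ d → G => thooft β z V a i j R)

/-- The expectation of the 't Hooft operator in infinite volume. -/
def hooft [MeasurableSpace G] (ν : Measure (LinkZ d → G)) (β : ℝ) (z : G)
    (a : Fin d → ℤ) (i j : Fin d) (R : Fin d → ℕ) : ℝ := ∫ V, thooft β z V a i j R ∂ν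

/-- The bound `exp (- K (log² β |S| + β log β |∂S|)) ≤ ⟨B(S)⟩` for all sheets on all large tori. -/
def TorusBound (d : ℕ) [MeasurableSpace G] (μ : Measure G) (β K : ℝ) (z : G) : Prop :=
  ∀ (a : Fin d → ℤ) (i j : Fin d), i < j → ∀ (R : Fin d → ℕ) (m : ℕ), 2 * β ≤ m + 1 →
    (∀ k, R k < 2 * (m + 1)) →
      Real.exp (-(K * cst β i j R)) ≤ hooftT (2 * (m + 1)) μ β z a i j R

/-- The bound `exp (- K (log² β |S| + β log β |∂S|)) ≤ ⟨B(S)⟩` for all sheets in infinite volume. -/
def InfBound [MeasurableSpace G] (ν : Measure (LinkZ d → G)) (β K : ℝ) (z : G) : Prop :=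
  ∀ (a : Fin d → ℤ) (i j : Fin d), i < j → ∀ R : Fin d → ℕ,
    Real.exp (-(K * cst β i j R)) ≤ hooft ν β z a i j R

/-- The dual string tension is at most `K`: the expectations of the 't Hooft operators of the cubes
of side `n` are at least `exp (- (K + ε) n ^ (d - 2))` for all large `n`. -/
def DualTensionLE [MeasurableSpace G] (ν : Measure (LinkZ d → G)) (β K : ℝ) (z : G) : Prop :=
  ∀ (a : Fin d → ℤ) (i j : Fin d), i < j → ∀ ε : ℝ, 0 < ε → ∀ᶠ n : ℕ in atTop,
    Real.exp (-((K + ε) * (n : ℝ) ^ (d - 2))) ≤ hooft ν β z a i j (fun _ => n)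

/-- The three bounds with the constant `K` at the inverse coupling `β`. -/
def Bounds (d : ℕ) [MeasurableSpace G] (μ : Measure G) (β K : ℝ) (z : G) : Prop :=
  TorusBound d μ β K z ∧ ∀ ν : Measure (LinkZ d → G), IsInfVol μ β ν →
    InfBound ν β K z ∧ DualTensionLE ν β (K * Real.log β ^ 2) z

/-- `γ` is a one-parameter subgroup of speed at most `s` (Frobenius norm) with `γ 1 = z`. -/
structure IsOneParam (γ : ℝ → G) (s : ℝ) (z : G) : Prop where
  add : ∀ t u, γ (t + u) = γ t * γ u
  one : γ 1 = z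
  speed : ∀ t, ‖mt (γ t) - 1‖ ≤ s * |t|

end

/-- The group `SU(N)`. -/
def SU (N : ℕ) : Subgroup (UU N) where
  carrier := {g | (g : Mt N).det = 1}
  mul_mem' {a b} ha hb := by
    simp only [Set.mem_ofPred_eq] at ha hb ⊢
    rw [Matrix.UnitaryGroup.mul_val, det_mul, ha, hb, one_mul]
  one_mem' := by simp
  inv_mem' {a} ha := by
    simp only [Set.mem_ofPred_eq] at ha ⊢
    rw [Matrix.UnitaryGroup.inv_val, star_eq_conjTranspose, det_conjTranspose, ha, star_one]

/-- The bounds for the group `G` and all central elements on one-parameter subgroups. -/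
def GroupBound {N : ℕ} (d : ℕ) (C : ℝ) (G : Subgroup (UU N)) [MeasurableSpace G]
    (μ : Measure G) : Prop :=
  ∀ (z : G) (γ : ℝ → G) (s : ℝ), z ∈ Subgroup.center G → IsOneParam γ s z →
    ∀ β : ℝ, 2 ≤ β → Bounds d μ β (C * s ^ 2) z

/-- The bounds for `SU(N)` and all its scalar elements. -/
def SUBound (N d : ℕ) (C : ℝ) [MeasurableSpace (SU N)] (μ : Measure (SU N)) : Prop :=
  ∀ (z : SU N) (w : ℂ), mt z = w • (1 : Mt N) → ∀ β : ℝ, 2 ≤ β → Bounds d μ β C z

open Pool.Agent.H906R3 Pool.Agent.W793 Pool.Agent.TH618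
open Pool.Agent.Q2.TH (vl twp inB TT actz OneP Ar Ak Pr R1)

variable {N n d l : ℕ} {G : Subgroup (UU N)}

/-- A Haar probability measure is invariant under right multiplications. -/
lemma right_inv {H : Type*} [Group H] [TopologicalSpace H] [IsTopologicalGroup H]
    [CompactSpace H] [MeasurableSpace H] [BorelSpace H] (μ : Measure H)
    [IsProbabilityMeasure μ] [μ.IsHaarMeasure] : μ.IsMulRightInvariant := by
  refine ⟨fun g => ?_⟩
  have h1 : IsProbabilityMeasure (Measure.map (fun x => x * g) μ) :=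
    Measure.isProbabilityMeasure_map (measurable_mul_const g).aemeasurable
  exact Measure.isHaarMeasure_eq_of_isProbabilityMeasure _ _

/-- A Haar probability measure is invariant under the inversion. -/
lemma inv_inv' {H : Type*} [Group H] [TopologicalSpace H] [IsTopologicalGroup H]
    [CompactSpace H] [MeasurableSpace H] [BorelSpace H] (μ : Measure H)
    [IsProbabilityMeasure μ] [μ.IsHaarMeasure] : μ.IsInvInvariant := by
  have hr := right_inv μ
  refine ⟨?_⟩
  have h1 : IsProbabilityMeasure μ.inv :=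
    Measure.isProbabilityMeasure_map measurable_inv.aemeasurable
  have h2 : μ.inv.IsMulLeftInvariant := inferInstance
  have h3 : μ.inv.IsHaarMeasure :=
    Measure.isHaarMeasure_of_isCompact_nonempty_interior μ.inv Set.univ isCompact_univ
      (by simp) (by simp) (by simp)
  exact Measure.isHaarMeasure_eq_of_isProbabilityMeasure _ _

lemma action_eq [NeZero l] (B : YM.Frame G n) (U : Link d l → G) :
    action U = YM.act B.toLD U := rfl

section bridge

variable [CompactSpace G] [SecondCountableTopology G] [MeasurableSpace G] [BorelSpace G]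
  (μ : Measure G) [IsProbabilityMeasure μ] [μ.IsHaarMeasure] (B : YM.Frame G n)

lemma expect_eq [NeZero l] (β : ℝ) (F : (LinkZ d → G) → ℝ) : expect l μ β F =
    YM.EX μ B.toLD β (fun U : YM.Ed d l → G => F (YM.lf U)) := by
  unfold expect YM.EX YM.Zt
  simp only [one_mul]
  rfl

include B in
lemma action_cont [NeZero l] : Continuous (action : (Link d l → G) → ℝ) :=
  YM.act_cont (L := B.toLD)

include B in
/-- existence of infinite volume limits -/
lemma exists_infVol (β : ℝ) : ∃ ν : Measure (LinkZ d → G), IsInfVol μ β ν := by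
  have hP : ∀ j : ℕ, ∃ P : ProbabilityMeasure (LinkZ d → G),
      ∀ F : (LinkZ d → G) → ℝ, Continuous F →
        ∫ V, F V ∂(P : Measure (LinkZ d → G)) = expect (2 * (j + 1)) μ β F := by
    intro j
    have hper : Continuous (per : (Link d (2 * (j + 1)) → G) → LinkZ d → G) :=
      continuous_pi fun e => continuous_apply _
    have hexp : Continuous fun U : Link d (2 * (j + 1)) → G =>
        Real.exp (-(β * action U)) :=
      Real.continuous_exp.comp (continuous_const.mul (action_cont B)).neg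
    have hint : Integrable (fun U : Link d (2 * (j + 1)) → G =>
        Real.exp (-(β * action U))) (Measure.pi fun _ => μ) :=
      hexp.integrable_of_hasCompactSupport (HasCompactSupport.of_compactSpace _)
    have h1 := isProbabilityMeasure_tilted (f := fun U : Link d (2 * (j + 1)) → G =>
      -(β * action U)) hint
    refine ⟨⟨((Measure.pi fun _ => μ).tilted fun U : Link d (2 * (j + 1)) → G =>
      -(β * action U)).map per, Measure.isProbabilityMeasure_map hper.aemeasurable⟩,
      fun F hF => ?_⟩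
    show ∫ V, F V ∂(((Measure.pi fun _ => μ).tilted fun U : Link d (2 * (j + 1)) → G =>
      -(β * action U)).map per) = _
    rw [integral_map hper.aemeasurable hF.aestronglyMeasurable, integral_tilted]
    unfold expect
    rw [← integral_div]
    refine integral_congr_ae (Filter.Eventually.of_forall fun U => ?_)
    simp only [smul_eq_mul]
    ring
  choose P hP using hP
  obtain ⟨ν, s, hs, hlim⟩ := CompactSpace.tendsto_subseq P
  refine ⟨ν, ⟨inferInstance, s, hs.tendsto_atTop, fun F hF => ?_⟩⟩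
  have h1 := (ProbabilityMeasure.tendsto_iff_forall_integral_tendsto.1 hlim)
    (BoundedContinuousFunction.mkOfCompact ⟨F, hF⟩)
  simp only [Function.comp_apply, BoundedContinuousFunction.mkOfCompact_apply,
    ContinuousMap.coe_mk] at h1
  simpa only [hP _ F hF] using h1

end bridge

/-- sums over the sheet -/
lemma sheet_sum [NeZero l] {i j : Fin d} {R : Fin d → ℕ} (hR : ∀ k, R k < l)
    (f : (Fin d → ZMod l) → ℝ) :
    ∑ x ∈ sheet i j R, f (YM.zt l x) = ∑ y, if twp i j R (vl y) i j then f y else 0 := by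
  classical
  rw [← Finset.sum_filter]
  have hmem : ∀ x : Fin d → ℤ, x ∈ sheet i j R ↔
      ∀ k, if k = i ∨ k = j then x k = 0 else 0 ≤ x k ∧ x k < R k := by
    intro x
    unfold sheet
    rw [Fintype.mem_piFinset]
    refine forall_congr' fun k => ?_
    split_ifs
    · exact Finset.mem_singleton
    · exact Finset.mem_Ico
  have hl : (0 : ℤ) < l := by exact_mod_cast Nat.pos_of_ne_zero (NeZero.ne l)
  have hval : ∀ x ∈ sheet i j R, ∀ k, (vl (YM.zt l x) k : ℤ) = x k := by
    intro x hx k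
    show (((x k : ℤ) : ZMod l).val : ℤ) = x k
    rw [ZMod.val_intCast]
    have h1 := (hmem x).1 hx k
    have h2 : (R k : ℤ) < l := by exact_mod_cast hR k
    split_ifs at h1
    · rw [h1]; simp
    · exact Int.emod_eq_of_lt h1.1 (by omega)
  refine Finset.sum_nbij' (fun x => YM.zt l x) (fun y k => (vl y k : ℤ)) ?_ ?_ ?_ ?_ ?_
  · intro x hx
    have h0 := (hmem x).1 hx
    have h1 := hval x hx
    refine Finset.mem_filter.2 ⟨Finset.mem_univ _, rfl, rfl, fun k hk1 hk2 => ?_, ?_, ?_⟩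
    · have h2 := h0 k
      rw [if_neg (by push Not; exact ⟨hk1, hk2⟩), ← h1 k] at h2
      exact_mod_cast h2.2
    · have h2 := h0 i
      rw [if_pos (Or.inl rfl), ← h1 i] at h2
      exact_mod_cast h2
    · have h2 := h0 j
      rw [if_pos (Or.inr rfl), ← h1 j] at h2
      exact_mod_cast h2
  · intro y hy
    obtain ⟨-, -, -, h1, h2, h3⟩ := Finset.mem_filter.1 hy
    refine (hmem _).2 fun k => ?_
    split_ifs with hk
    · rcases hk with rfl | rfl
      · exact_mod_cast h2
      · exact_mod_cast h3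
    · push Not at hk
      exact ⟨by positivity, by exact_mod_cast h1 k hk.1 hk.2⟩
  · intro x hx
    funext k
    exact hval x hx k
  · intro y hy
    funext k
    show (((vl y k : ℕ) : ℤ) : ZMod l) = y k
    rw [Int.cast_natCast]
    exact ZMod.natCast_zmod_val (y k)
  · intro x hx
    rfl

lemma zt_add' (a x : Fin d → ℤ) : YM.zt l (a + x) = YM.zt l x + YM.zt l a := by
  funext k
  show ((a k + x k : ℤ) : ZMod l) = (x k : ZMod l) + (a k : ZMod l)
  push_cast
  ring

lemma plaqZ_lf (U : YM.Ed d l → G) (x : Fin d → ℤ) (i j : Fin d) :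
    plaqZ (YM.lf U) x i j = YM.plqT U (YM.zt l x) i j := by
  unfold plaqZ YM.plqT YM.lf
  have h1 : ∀ k : Fin d, (fun i => (((x + Pi.single k 1 : Fin d → ℤ) i : ℤ) : ZMod l)) =
      YM.zt l x + YM.eT k := fun k => YM.zt_add x k
  simp only [h1]
  rfl

lemma thooft_lf [CompactSpace G] [SecondCountableTopology G] [MeasurableSpace G] [BorelSpace G]
    [NeZero l] (B : YM.Frame G n) {i j : Fin d} (hij : i < j) {R : Fin d → ℕ}
    (hR : ∀ k, R k < l) (β : ℝ) (z : G) (U : YM.Ed d l → G) (a : Fin d → ℤ) :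
    thooft β z (YM.lf U) a i j R = TT B.toLD β i j R z (YM.tr (YM.zt l a) U) := by
  unfold thooft TT
  rw [Pool.Agent.Q2.TH.actz_sub hij]
  congr 1
  have h1 := sheet_sum (i := i) (j := j) hR fun y : Fin d → ZMod l =>
    (trace ((mt z - 1) * mt (YM.plqT U (y + YM.zt l a) i j))).re
  have h2 : ∑ x ∈ sheet i j R, (trace ((mt z - 1) * mt (plaqZ (YM.lf U) (a + x) i j))).re =
      ∑ x ∈ sheet i j R, (trace ((mt z - 1) * mt (YM.plqT U (YM.zt l x + YM.zt l a) i j))).re := by
    refine Finset.sum_congr rfl fun x _ => ?_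
    rw [plaqZ_lf, zt_add']
  rw [h2, h1, ← mul_neg, ← Finset.sum_neg_distrib]
  congr 1
  refine Finset.sum_congr rfl fun y _ => ?_
  by_cases h : twp i j R (vl y) i j
  · rw [if_pos h, if_pos h, YM.plqT_tr]
    have h3 : ∀ g : G, YM.we B.toLD g = (trace (1 - mt g)).re := fun g => rfl
    rw [h3, h3]
    have h4 : mt (z * YM.plqT U (y + YM.zt l a) i j) =
        mt z * mt (YM.plqT U (y + YM.zt l a) i j) := rfl
    rw [h4, trace_sub, trace_sub, sub_mul, one_mul, trace_sub]
    simp only [Complex.sub_re]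
    ring
  · rw [if_neg h, if_neg h, neg_zero]

lemma area_eq {i j : Fin d} (R : Fin d → ℕ) : Ar i j R = area i j R := by
  unfold Ar area
  rw [Finset.prod_filter]
  refine Finset.prod_congr rfl fun k _ => ?_
  unfold R1
  by_cases h1 : k = i
  · subst h1; simp
  · by_cases h2 : k = j
    · subst h2; simp
    · simp [h1, h2]

lemma bdry_eq {i j : Fin d} (R : Fin d → ℕ) : Pr i j R = bdry i j R := by
  unfold Pr bdry
  rw [Finset.sum_filter]
  refine Finset.sum_congr rfl fun k _ => ?_
  by_cases h : k = i ∨ k = j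
  · rw [if_pos h, if_neg]
    rintro ⟨h1, h2⟩
    exact h.elim h1 h2
  · rw [if_neg h]
    push Not at h
    rw [if_pos h]
    unfold Ak
    have h1 : (Finset.univ.filter (fun k => k ≠ i ∧ k ≠ j)).erase k =
        (Finset.univ.erase k).filter (fun k => k ≠ i ∧ k ≠ j) := by
      ext k'
      simp only [Finset.mem_erase, Finset.mem_filter, Finset.mem_univ, true_and, and_true]
    rw [h1, Finset.prod_filter]
    refine Finset.prod_congr rfl fun k' _ => ?_
    unfold R1
    by_cases h1 : k' = i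
    · subst h1; simp
    · by_cases h2 : k' = j
      · subst h2; simp
      · simp [h1, h2]

lemma apply_cont (e : LinkZ d) : Continuous fun V : LinkZ d → G => V e := continuous_apply e

lemma four_cont (e1 e2 e3 e4 : LinkZ d) : Continuous fun V : LinkZ d → G =>
    V e1 * V e2 * (V e3)⁻¹ * (V e4)⁻¹ :=
  (((apply_cont e1).mul (apply_cont e2)).mul (apply_cont e3).inv).mul (apply_cont e4).inv

lemma plaqZ_cont (x : Fin d → ℤ) (i j : Fin d) :
    Continuous fun V : LinkZ d → G => plaqZ V x i j :=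
  four_cont (x, i) (x + Pi.single i 1, j) (x + Pi.single j 1, i) (x, j)

lemma mt_cont : Continuous (mt : G → Mt N) := continuous_subtype_val.comp continuous_subtype_val

lemma term_cont (M : Mt N) (x : Fin d → ℤ) (i j : Fin d) :
    Continuous fun V : LinkZ d → G => (trace (M * mt (plaqZ V x i j))).re := by
  have h1 : Continuous fun V : LinkZ d → G => M * mt (plaqZ V x i j) :=
    continuous_const.mul (mt_cont.comp (plaqZ_cont x i j))
  exact Complex.continuous_re.comp h1.matrix_trace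

lemma thooft_cont (β : ℝ) (z : G) (a : Fin d → ℤ) (i j : Fin d) (R : Fin d → ℕ) :
    Continuous fun V : LinkZ d → G => thooft β z V a i j R := by
  have h3 : ∀ S : Finset (Fin d → ℤ), Continuous fun V : LinkZ d → G =>
      ∑ x ∈ S, (trace ((mt z - 1) * mt (plaqZ V (a + x) i j))).re :=
    fun S => continuous_finsetSum _ fun x _ => term_cont _ _ _ _
  have h4 : ∀ S : Finset (Fin d → ℤ), Continuous fun V : LinkZ d → G =>
      Real.exp (β * ∑ x ∈ S, (trace ((mt z - 1) * mt (plaqZ V (a + x) i j))).re) :=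
    fun S => Real.continuous_exp.comp (continuous_const.mul (h3 S))
  exact h4 (sheet i j R)

/-- the dyadic scale of `β` -/
lemma exists_scale {β : ℝ} (hβ : 2 ≤ β) : ∃ J : ℕ, (2 : ℝ) ^ J ≤ β ∧ β ≤ 2 ^ (J + 1) ∧
    (J + 2 : ℝ) ≤ 5 * Real.log β ∧ (2 * J + 3 : ℝ) ≤ 8 * Real.log β ∧
    1 ≤ 3 * Real.log β ^ 2 := by
  have h12 : (1 : ℝ) < 2 := one_lt_two
  have h1β : (1 : ℝ) ≤ β := by linarith
  obtain ⟨J, h1, h2⟩ := exists_nat_pow_near h1β h12
  have hl2 : (69 / 100 : ℝ) ≤ Real.log 2 := by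
    have := Real.log_two_gt_d9
    norm_num at this ⊢
    linarith
  have hJ1 : 1 ≤ J := by
    by_contra h
    have h3 : J = 0 := by omega
    rw [h3, zero_add, pow_one] at h2
    linarith
  have hJ1' : (1 : ℝ) ≤ J := by exact_mod_cast hJ1
  have h3 : (J : ℝ) * Real.log 2 ≤ Real.log β := by
    rw [← Real.log_pow]
    exact Real.log_le_log (pow_pos two_pos J) h1
  have h4 : (J : ℝ) * (69 / 100) ≤ Real.log β :=
    le_trans (mul_le_mul_of_nonneg_left hl2 (Nat.cast_nonneg J)) h3
  clear h3 hl2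
  have h5 : (69 / 100 : ℝ) ≤ Real.log β := by linarith
  generalize Real.log β = ℓ at *
  refine ⟨J, h1, h2.le, by linarith, by linarith, ?_⟩
  have h6 : (69 / 100 : ℝ) * (69 / 100) ≤ ℓ * ℓ :=
    mul_le_mul h5 h5 (by norm_num) (by linarith)
  rw [pow_two]
  linarith

/-- the constant -/
def CC (N d : ℕ) : ℝ := 60 * N * (163 + 320 * d * Pool.Agent.Q2.TH.Cg d N + 480 * N ^ 2)

lemma cost_le {s : ℝ} {β : ℝ} {J : ℕ} {A P : ℝ} (hA : 0 ≤ A) (hP : 0 ≤ P) (hβ : 2 ≤ β)
    (h1 : (J + 2 : ℝ) ≤ 5 * Real.log β) (h2 : (2 * J + 3 : ℝ) ≤ 8 * Real.log β)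
    (h3 : 1 ≤ 3 * Real.log β ^ 2) :
    60 * N * (s ^ 2 * ((1 + 8 * d * Pool.Agent.Q2.TH.Cg d N * (J + 2) * (2 * J + 3)) * A +
      (32 + 96 * N ^ 2) * β * (J + 2) * P)) ≤
    CC N d * s ^ 2 * (Real.log β ^ 2 * A + β * Real.log β * P) := by
  unfold CC
  have hC := Pool.Agent.Q2.TH.Cg_nonneg d N
  generalize Pool.Agent.Q2.TH.Cg d N = Cg at *
  generalize Real.log β = ℓ at *
  have hℓ0 : 0 ≤ ℓ := by
    have : (0 : ℝ) ≤ J + 2 := by positivity
    linarith
  have h4 : ((J : ℝ) + 2) * (2 * J + 3) ≤ 40 * ℓ ^ 2 := by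
    refine (mul_le_mul h1 h2 (by positivity) (by positivity)).trans (le_of_eq ?_)
    ring
  have h5 : 1 + 8 * d * Cg * (J + 2) * (2 * J + 3) ≤ (3 + 320 * d * Cg) * ℓ ^ 2 := by
    have h6 := mul_le_mul_of_nonneg_left h4 (by positivity : (0 : ℝ) ≤ 8 * d * Cg)
    have e1 : 8 * d * Cg * ((J + 2) * (2 * J + 3)) = 8 * d * Cg * (J + 2) * (2 * J + 3) := by ring
    rw [e1] at h6
    have e2 : (3 + 320 * d * Cg) * ℓ ^ 2 = 3 * ℓ ^ 2 + 8 * d * Cg * (40 * ℓ ^ 2) := by ring
    rw [e2]
    linarith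
  have h6 : (32 + 96 * (N : ℝ) ^ 2) * β * (J + 2) ≤ (160 + 480 * N ^ 2) * (β * ℓ) := by
    have h7 := mul_le_mul_of_nonneg_left h1 (by positivity : (0 : ℝ) ≤ (32 + 96 * (N : ℝ) ^ 2) * β)
    refine h7.trans (le_of_eq ?_)
    ring
  have h7 := mul_le_mul_of_nonneg_right h5 hA
  have h8 := mul_le_mul_of_nonneg_right h6 hP
  have h9 : (1 + 8 * d * Cg * (J + 2) * (2 * J + 3)) * A + (32 + 96 * (N : ℝ) ^ 2) * β * (J + 2) * P ≤
      (163 + 320 * d * Cg + 480 * N ^ 2) * (ℓ ^ 2 * A + β * ℓ * P) := by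
    have e1 : 0 ≤ ℓ ^ 2 * A := by positivity
    have e2 : 0 ≤ β * ℓ * P := by positivity
    have e3 : (0 : ℝ) ≤ (160 + 480 * N ^ 2) * (ℓ ^ 2 * A) := by positivity
    have e4 : (0 : ℝ) ≤ (3 + 320 * d * Cg) * (β * ℓ * P) := by positivity
    have e5 : (163 + 320 * d * Cg + 480 * (N : ℝ) ^ 2) * (ℓ ^ 2 * A + β * ℓ * P) =
        (3 + 320 * d * Cg) * ℓ ^ 2 * A + (160 + 480 * N ^ 2) * (β * ℓ) * P +
        ((160 + 480 * N ^ 2) * (ℓ ^ 2 * A) + (3 + 320 * d * Cg) * (β * ℓ * P)) := by ring
    rw [e5]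
    linarith
  have h10 := mul_le_mul_of_nonneg_left h9 (by positivity : (0 : ℝ) ≤ 60 * N * s ^ 2)
  refine le_trans (le_of_eq (by ring)) (h10.trans (le_of_eq (by ring)))

theorem main {N d : ℕ} (hN : 1 ≤ N) (hd : 4 ≤ d) (G : Subgroup (UU N))
    (hG : IsClosed (G : Set (UU N))) [MeasurableSpace G] [BorelSpace G] (μ : Measure G)
    [IsProbabilityMeasure μ] [μ.IsHaarMeasure] :
    (∀ β : ℝ, ∃ ν : Measure (LinkZ d → G), IsInfVol μ β ν) ∧
    ∀ (z : G) (γ : ℝ → G) (s : ℝ), z ∈ Subgroup.center G → IsOneParam γ s z →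
      ∀ β : ℝ, 2 ≤ β → ∀ (a : Fin d → ℤ) (i j : Fin d), i < j → ∀ R : Fin d → ℕ,
      (∀ m : ℕ, 2 * β ≤ m + 1 → (∀ k, R k < 2 * (m + 1)) →
        Real.exp (-(CC N d * s ^ 2 * cst β i j R)) ≤ hooftT (2 * (m + 1)) μ β z a i j R) ∧
      ∀ ν : Measure (LinkZ d → G), IsInfVol μ β ν →
        Real.exp (-(CC N d * s ^ 2 * cst β i j R)) ≤ hooft ν β z a i j R := by
  have : CompactSpace G := by
    have h1 : IsCompact (G : Set (UU N)) := hG.isCompact
    exact isCompact_iff_compactSpace.1 h1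
  have h00 : SecondCountableTopology (UU N) := TopologicalSpace.Subtype.secondCountableTopology _
  have : SecondCountableTopology G := TopologicalSpace.Subtype.secondCountableTopology _
  have := right_inv μ
  have := inv_inv' μ
  obtain ⟨n, ⟨B⟩⟩ := YM.exists_frame hG
  refine ⟨fun β => exists_infVol μ B β, ?_⟩
  intro z γ s hz hγ β hβ a i j hij R
  have hO : OneP B.toLD γ s := ⟨hγ.add, hγ.speed⟩
  have hz' : ∀ g : G, γ 1 * g = g * γ 1 := by
    intro g
    rw [hγ.one]
    exact (Subgroup.mem_center_iff.1 hz g).symm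
  have key : ∀ m : ℕ, 2 * β ≤ m + 1 → (∀ k, R k < 2 * (m + 1)) →
        Real.exp (-(CC N d * s ^ 2 * cst β i j R)) ≤ hooftT (2 * (m + 1)) μ β z a i j R := by
    intro m hm hR
    obtain ⟨J, h1, h2, h3, h4, h5⟩ := exists_scale hβ
    have hm1 : 2 ^ (J + 1) ≤ m + 1 := by
      have h6 : (2 : ℝ) ^ (J + 1) ≤ m + 1 := by
        rw [pow_succ]
        linarith
      exact_mod_cast h6
    have hm2 : 2 ≤ m + 1 := by
      have h6 : (2 : ℝ) ≤ m + 1 := by linarith
      exact_mod_cast h6
    unfold hooftT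
    rw [expect_eq μ B]
    have e1 : (fun U : YM.Ed d (2 * (m + 1)) → G => thooft β z (YM.lf U) a i j R) =
        fun U => TT B.toLD β i j R (γ 1) (YM.tr (YM.zt _ a) U) := by
      funext U
      rw [thooft_lf B hij hR, hγ.one]
    rw [e1, YM.EX_tr μ (YM.zt _ a) (fun U => TT B.toLD β i j R (γ 1) U)]
    refine le_trans (Real.exp_le_exp.2 (neg_le_neg ?_))
      (Pool.Agent.Q2.TH.EX_TT_ge μ (L := B.toLD) (J := J) hO hz' hij hm1 hm2 hN hd h1 h2 hR)
    unfold cst
    rw [← area_eq, ← bdry_eq]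
    exact cost_le Pool.Agent.Q2.TH.Ar_nonneg Pool.Agent.Q2.TH.Pr_nonneg hβ h3 h4 h5
  refine ⟨key, fun ν hν => ?_⟩
  obtain ⟨t, ht, hlim⟩ := hν.lim
  refine ge_of_tendsto (hlim _ (thooft_cont β z a i j R)) ?_
  obtain ⟨M, hM⟩ := exists_nat_ge (2 * β)
  obtain ⟨M', hM'⟩ : ∃ M' : ℕ, ∀ k, R k < M' := by
    refine ⟨∑ k, R k + 1, fun k => ?_⟩
    have := Finset.single_le_sum (f := R) (fun k _ => Nat.zero_le _) (Finset.mem_univ k)
    omega
  filter_upwards [ht.eventually_ge_atTop (M + M')] with q hq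
  refine key (t q) ?_ fun k => ?_
  · have h1 : (M : ℝ) ≤ t q := by
      have : M ≤ t q := by omega
      exact_mod_cast this
    linarith
  · have := hM' k
    omega

lemma SU_closed (N : ℕ) : IsClosed (SU N : Set (UU N)) := by
  have h1 : Continuous fun g : UU N => (g : Mt N).det := Continuous.matrix_det continuous_subtype_val
  exact isClosed_eq h1 continuous_const

/-- the angles -/
def th (N k : ℕ) (j : Fin N) : ℝ := if (j : ℕ) < N - k then (k : ℝ) / N else k / N - 1

lemma th_abs {k : ℕ} (hk : k < N) (j : Fin N) : |th N k j| ≤ 1 := by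
  have hN : (0 : ℝ) < N := by exact_mod_cast (by omega : 0 < N)
  have h1 : (k : ℝ) / N ≤ 1 := by
    rw [div_le_one hN]
    exact_mod_cast hk.le
  have h2 : (0 : ℝ) ≤ k / N := by positivity
  unfold th
  rw [abs_le]
  split_ifs <;> constructor <;> linarith

lemma th_sum {k : ℕ} (hk : k < N) : ∑ j, th N k j = 0 := by
  have hN : (N : ℝ) ≠ 0 := by
    have : N ≠ 0 := by omega
    exact_mod_cast this
  have h1 : ∀ j : Fin N, th N k j = k / N - if (j : ℕ) < N - k then 0 else 1 := by
    intro j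
    unfold th
    split_ifs <;> ring
  rw [Finset.sum_congr rfl fun j _ => h1 j, Finset.sum_sub_distrib, Finset.sum_const,
    Finset.card_univ, Fintype.card_fin, nsmul_eq_mul, mul_div_cancel₀ _ hN]
  have h2 : ∑ j : Fin N, (if (j : ℕ) < N - k then (0 : ℝ) else 1) = k := by
    rw [Fin.sum_univ_eq_sum_range (fun j => if j < N - k then (0 : ℝ) else 1) N]
    have h3 : ∑ j ∈ Finset.range N, (if j < N - k then (0 : ℝ) else 1) =
        ∑ j ∈ Finset.range N, ((1 : ℝ) - if j < N - k then 1 else 0) := by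
      refine Finset.sum_congr rfl fun j _ => ?_
      split_ifs <;> ring
    rw [h3, Finset.sum_sub_distrib, Finset.sum_const, Finset.card_range, ← Finset.sum_filter,
      Finset.sum_const]
    have h4 : (Finset.range N).filter (fun j => j < N - k) = Finset.range (N - k) := by
      ext j
      simp only [Finset.mem_filter, Finset.mem_range]
      omega
    rw [h4, Finset.card_range, nsmul_eq_mul, nsmul_eq_mul, mul_one, mul_one]
    push_cast [hk.le]
    ring
  rw [h2, sub_self]

/-- the diagonal entries -/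
def vd (N k : ℕ) (t : ℝ) (j : Fin N) : ℂ := Complex.exp ((2 * Real.pi * (t * th N k j) : ℝ) * Complex.I)

lemma vd_norm (N k : ℕ) (t : ℝ) (j : Fin N) : vd N k t j * star (vd N k t j) = 1 := by
  have h1 : ‖vd N k t j‖ = 1 := Complex.norm_exp_ofReal_mul_I _
  show vd N k t j * (starRingEnd ℂ) (vd N k t j) = 1
  rw [Complex.mul_conj, Complex.normSq_eq_norm_sq, h1]
  norm_num

lemma vd_prod {k : ℕ} (hk : k < N) (t : ℝ) : ∏ j, vd N k t j = 1 := by
  unfold vd
  rw [← Complex.exp_sum, ← Finset.sum_mul, ← Complex.ofReal_sum]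
  have h1 : ∑ j, 2 * Real.pi * (t * th N k j) = 2 * Real.pi * t * ∑ j, th N k j := by
    rw [Finset.mul_sum]
    refine Finset.sum_congr rfl fun j _ => ?_
    ring
  rw [h1, th_sum hk]
  simp

/-- the one-parameter subgroup -/
def gam {k : ℕ} (hk : k < N) (t : ℝ) : SU N :=
  ⟨⟨diagonal (vd N k t), by
    rw [Matrix.mem_unitaryGroup_iff, star_eq_conjTranspose, diagonal_conjTranspose,
      diagonal_mul_diagonal]
    rw [← diagonal_one]
    congr 1
    funext j
    exact vd_norm N k t j⟩, by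
    show (diagonal (vd N k t)).det = 1
    rw [det_diagonal, vd_prod hk]⟩

lemma gam_mt {k : ℕ} (hk : k < N) (t : ℝ) : mt (gam hk t) = diagonal (vd N k t) := rfl

lemma mt_inj {g h : G} (e : mt g = mt h) : g = h := Subtype.ext (Subtype.ext e)

lemma mt_mul (g h : G) : mt (g * h) = mt g * mt h := rfl

lemma gam_add {k : ℕ} (hk : k < N) (t u : ℝ) : gam hk (t + u) = gam hk t * gam hk u := by
  refine mt_inj ?_
  rw [mt_mul, gam_mt, gam_mt, gam_mt, diagonal_mul_diagonal]
  congr 1
  funext j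
  unfold vd
  rw [← Complex.exp_add]
  congr 1
  push_cast
  ring

lemma gam_one {k : ℕ} (hk : k < N) : mt (gam hk 1) =
    Complex.exp (2 * Real.pi * Complex.I * (k / N)) • (1 : Mt N) := by
  rw [gam_mt, smul_one_eq_diagonal]
  congr 1
  funext j
  unfold vd th
  split_ifs
  · congr 1
    push_cast
    ring
  · rw [one_mul]
    have h1 : (((2 * Real.pi * ((k : ℝ) / N - 1) : ℝ)) : ℂ) * Complex.I =
        2 * Real.pi * Complex.I * (k / N) - 2 * Real.pi * Complex.I := by
      push_cast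
      ring
    rw [h1, Complex.exp_sub, Complex.exp_two_pi_mul_I, div_one]

lemma gam_speed {k : ℕ} (hk : k < N) (t : ℝ) :
    ‖mt (gam hk t) - 1‖ ≤ 2 * Real.pi * Real.sqrt N * |t| := by
  have hpi := Real.pi_pos
  have h1 : ∀ j, ‖vd N k t j - 1‖ ≤ 2 * Real.pi * |t| := by
    intro j
    unfold vd
    rw [mul_comm]
    refine (Real.norm_exp_I_mul_ofReal_sub_one_le).trans ?_
    rw [Real.norm_eq_abs, abs_mul, abs_mul t, abs_of_pos (by positivity : 0 < 2 * Real.pi)]
    have h2 := th_abs hk j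
    have h3 : |t| * |th N k j| ≤ |t| := mul_le_of_le_one_right (abs_nonneg t) h2
    exact mul_le_mul_of_nonneg_left h3 (by positivity)
  have h2 : ‖mt (gam hk t) - 1‖ = Real.sqrt (∑ i, ∑ j, ‖(mt (gam hk t) - 1) i j‖ ^ 2) := by
    rw [frobenius_norm_def, Real.sqrt_eq_rpow]
    simp only [Real.rpow_two]
  have h3 : ∑ i, ∑ j, ‖(mt (gam hk t) - 1) i j‖ ^ 2 = ∑ i, ‖vd N k t i - 1‖ ^ 2 := by
    refine Finset.sum_congr rfl fun i _ => ?_
    rw [Finset.sum_eq_single i]
    · rw [gam_mt, Matrix.sub_apply, diagonal_apply_eq, one_apply_eq]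
    · intro j _ hj
      rw [gam_mt, Matrix.sub_apply, diagonal_apply_ne _ hj.symm, one_apply_ne hj.symm, sub_zero, norm_zero]
      norm_num
    · intro h; exact absurd (Finset.mem_univ _) h
  have h4 : ∑ i, ‖vd N k t i - 1‖ ^ 2 ≤ N * (2 * Real.pi * |t|) ^ 2 := by
    refine (Finset.sum_le_sum fun i _ => pow_le_pow_left₀ (norm_nonneg _) (h1 i) 2).trans
      (le_of_eq ?_)
    rw [Finset.sum_const, Finset.card_univ, Fintype.card_fin, nsmul_eq_mul]
  rw [h2, h3]
  refine (Real.sqrt_le_sqrt h4).trans (le_of_eq ?_)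
  rw [Real.sqrt_mul (Nat.cast_nonneg N), Real.sqrt_sq (by positivity)]
  ring

/-- scalar matrices in `SU(N)` lie on one-parameter subgroups -/
lemma exists_gam (hN : 1 ≤ N) {z : SU N} {w : ℂ} (hz : mt z = w • (1 : Mt N)) :
    ∃ γ : ℝ → SU N, IsOneParam γ (2 * Real.pi * Real.sqrt N) z := by
  have h1 : w ^ N = 1 := by
    have h2 : (mt z).det = 1 := z.2
    rw [hz, det_smul, det_one, mul_one, Fintype.card_fin] at h2
    exact h2
  have hN0 : N ≠ 0 := by omega
  have : NeZero N := ⟨hN0⟩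
  obtain ⟨k, hk, h2⟩ := (Complex.isPrimitiveRoot_exp N hN0).eq_pow_of_pow_eq_one h1
  refine ⟨gam hk, gam_add hk, mt_inj ?_, gam_speed hk⟩
  rw [gam_one hk, hz, ← h2, ← Complex.exp_nat_mul]
  congr 2
  ring

lemma scalar_center {z : SU N} {w : ℂ} (hz : mt z = w • (1 : Mt N)) :
    z ∈ Subgroup.center (SU N) := by
  rw [Subgroup.mem_center_iff]
  intro g
  refine mt_inj ?_
  rw [mt_mul, mt_mul, hz]
  simp

/-- the cubes -/
lemma cube_bound {d : ℕ} (hd : 4 ≤ d) {i j : Fin d} (hij : i < j) (n : ℕ) :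
    area i j (fun _ => n) = (n : ℝ) ^ (d - 2) ∧
      bdry i j (fun _ => n) = ((d - 2 : ℕ) : ℝ) * (n : ℝ) ^ (d - 3) := by
  have h1 : (Finset.univ.filter (fun k : Fin d => k ≠ i ∧ k ≠ j)).card = d - 2 := by
    have h2 : Finset.univ.filter (fun k : Fin d => k ≠ i ∧ k ≠ j) =
        (Finset.univ.erase i).erase j := by
      ext k
      simp only [Finset.mem_filter, Finset.mem_univ, true_and, Finset.mem_erase, and_true]
      tauto
    rw [h2, Finset.card_erase_of_mem (Finset.mem_erase.2 ⟨hij.ne', Finset.mem_univ _⟩),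
      Finset.card_erase_of_mem (Finset.mem_univ _), Finset.card_univ, Fintype.card_fin]
    omega
  refine ⟨?_, ?_⟩
  · unfold area
    rw [Finset.prod_const, h1]
  · unfold bdry
    rw [Finset.sum_congr rfl fun k hk => by
      rw [Finset.prod_const, Finset.card_erase_of_mem hk, h1], Finset.sum_const, h1, nsmul_eq_mul]
    congr 2

/-- from the bound for all boxes to the dual string tension -/
lemma tension {d : ℕ} (hd : 4 ≤ d) {i j : Fin d} (hij : i < j) {K β ℓ : ℝ} {W : ℕ → ℝ}
    (hℓ : ℓ = Real.log β) (h : ∀ n : ℕ, Real.exp (-(K * cst β i j (fun _ => n))) ≤ W n) {ε : ℝ} (hε : 0 < ε) :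
    ∀ᶠ n : ℕ in atTop, Real.exp (-((K * ℓ ^ 2 + ε) * (n : ℝ) ^ (d - 2))) ≤ W n := by
  obtain ⟨M, hM⟩ := exists_nat_ge (K * (β * ℓ) * (d - 2 : ℕ) / ε)
  filter_upwards [eventually_ge_atTop M] with n hn
  refine le_trans (Real.exp_le_exp.2 (neg_le_neg ?_)) (h n)
  obtain ⟨h1, h2⟩ := cube_bound hd hij n
  unfold cst
  rw [h1, h2, ← hℓ]
  have h3 : K * (β * ℓ) * (d - 2 : ℕ) ≤ n * ε := by
    rw [div_le_iff₀ hε] at hM
    refine hM.trans (mul_le_mul_of_nonneg_right ?_ hε.le)
    exact_mod_cast hn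
  have h4 : (n : ℝ) ^ (d - 2) = n * (n : ℝ) ^ (d - 3) := by
    rw [← pow_succ']
    congr 1
    omega
  have h5 : (0 : ℝ) ≤ (n : ℝ) ^ (d - 3) := by positivity
  have h6 := mul_le_mul_of_nonneg_right h3 h5
  have h7 : (K * ℓ ^ 2 + ε) * (n : ℝ) ^ (d - 2) = K * ℓ ^ 2 * (n : ℝ) ^ (d - 2) +
      n * ε * (n : ℝ) ^ (d - 3) := by
    rw [h4]; ring
  rw [h7]
  refine le_trans (le_of_eq ?_) (add_le_add_right h6 _)
  ring

theorem result {N d : ℕ} (hN : 1 ≤ N) (hd : 4 ≤ d) :
    ∃ C : ℝ, 0 < C ∧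
      (∀ G : Subgroup (UU N), IsClosed (G : Set (UU N)) →
        ∀ [MeasurableSpace G] [BorelSpace G] (μ : Measure G) [IsProbabilityMeasure μ]
          [μ.IsHaarMeasure],
        (∀ β : ℝ, ∃ ν : Measure (LinkZ d → G), IsInfVol μ β ν) ∧ GroupBound d C G μ) ∧
      (∀ [MeasurableSpace (SU N)] [BorelSpace (SU N)] (μ : Measure (SU N))
          [IsProbabilityMeasure μ] [μ.IsHaarMeasure], SUBound N d C μ) := by
  have hN1 : (1 : ℝ) ≤ N := by exact_mod_cast hN
  have hCg := Pool.Agent.Q2.TH.Cg_nonneg d N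
  have hCC : 0 < CC N d := by unfold CC; positivity
  have hnn : ∀ (β : ℝ) (i j : Fin d) (R : Fin d → ℕ), 2 ≤ β → 0 ≤ cst β i j R := by
    intro β i j R hβ
    unfold cst
    have h1 : 0 ≤ Real.log β := Real.log_nonneg (by linarith)
    have h2 : 0 ≤ area i j R := by rw [← area_eq]; exact Pool.Agent.Q2.TH.Ar_nonneg
    have h3 : 0 ≤ bdry i j R := by rw [← bdry_eq]; exact Pool.Agent.Q2.TH.Pr_nonneg
    have h4 : 0 ≤ β := by linarith
    positivity
  have hmono : ∀ (s β : ℝ) (i j : Fin d) (R : Fin d → ℕ), 2 ≤ β →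
      CC N d * s ^ 2 * cst β i j R ≤ 40 * N * CC N d * s ^ 2 * cst β i j R := by
    intro s β i j R hβ
    refine mul_le_mul_of_nonneg_right ?_ (hnn β i j R hβ)
    have h1 : 0 ≤ CC N d * s ^ 2 := by positivity
    have h2 : (1 : ℝ) ≤ 40 * N := by linarith
    have h3 := mul_le_mul_of_nonneg_right h2 h1
    linarith
  refine ⟨40 * N * CC N d, by positivity, ?_, ?_⟩
  · intro G hG _ _ μ _ _
    obtain ⟨h1, h2⟩ := main (d := d) hN hd G hG μ
    refine ⟨h1, fun z γ s hz hγ β hβ => ⟨fun a i j hij R m hm hR => ?_, fun ν hν => ?_⟩⟩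
    · exact le_trans (Real.exp_le_exp.2 (neg_le_neg (hmono s β i j R hβ)))
        ((h2 z γ s hz hγ β hβ a i j hij R).1 m hm hR)
    · have key : InfBound ν β (40 * N * CC N d * s ^ 2) z := fun a i j hij R =>
        le_trans (Real.exp_le_exp.2 (neg_le_neg (hmono s β i j R hβ)))
          ((h2 z γ s hz hγ β hβ a i j hij R).2 ν hν)
      refine ⟨key, fun a i j hij ε hε => ?_⟩
      exact tension hd hij rfl (fun n => key a i j hij fun _ => n) hε
  · intro _ _ μ _ _ z w hz β hβ
    obtain ⟨γ, hγ⟩ := exists_gam hN hz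
    have hle : ∀ (i j : Fin d) (R : Fin d → ℕ), CC N d * (2 * Real.pi * Real.sqrt N) ^ 2 *
        cst β i j R ≤ 40 * N * CC N d * cst β i j R := by
      intro i j R
      refine mul_le_mul_of_nonneg_right ?_ (hnn β i j R hβ)
      have h2 : (2 * Real.pi * Real.sqrt N) ^ 2 = 4 * Real.pi ^ 2 * N := by
        rw [mul_pow, mul_pow, Real.sq_sqrt (Nat.cast_nonneg N)]
        ring
      rw [h2]
      have h3 : Real.pi ^ 2 ≤ 10 := by
        have h4 := Real.pi_lt_d2
        have h5 := Real.pi_pos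
        have h6 : Real.pi ^ 2 ≤ 3.15 ^ 2 := pow_le_pow_left₀ h5.le h4.le 2
        norm_num at h6
        linarith
      have h4 : CC N d * (4 * Real.pi ^ 2 * N) = 4 * N * CC N d * Real.pi ^ 2 := by ring
      rw [h4]
      have h5 : (0 : ℝ) ≤ 4 * N * CC N d := by positivity
      have h6 := mul_le_mul_of_nonneg_left h3 h5
      linarith
    have hmain := (main (d := d) hN hd (SU N) (SU_closed N) μ).2 z γ _ (scalar_center hz) hγ β hβ
    refine ⟨fun a i j hij R m hm hR => ?_, fun ν hν => ?_⟩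
    · exact le_trans (Real.exp_le_exp.2 (neg_le_neg (hle i j R))) ((hmain a i j hij R).1 m hm hR)
    · have key : InfBound ν β (40 * N * CC N d) z := fun a i j hij R =>
        le_trans (Real.exp_le_exp.2 (neg_le_neg (hle i j R))) ((hmain a i j hij R).2 ν hν)
      refine ⟨key, fun a i j hij ε hε => ?_⟩
      exact tension hd hij rfl (fun n => key a i j hij fun _ => n) hε

end

end Pool.Agent.Results.MP_7f377f_mp.THooftLoop
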