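import Mathlib
import Pool.Agent.Q205.YM.Eqp
import Pool.Agent.Q205.YM.Rie
import Pool.Agent.TH369.WL.Sub
import Pool.Agent.H906R3.YM.Conc

/-!
# Lattice Yang-Mills theory in the Hamiltonian form: the vacuum energy at weak coupling

Space is the periodic cubic lattice `(ℤ/l)^D`, the gauge group `G` is a closed subgroup of `U(N)` of
dimension `n`, and the Hamiltonian is the one of Kogut and Susskind,
`H = - (g ^ 2 / 2) Δ + g ^ (-2) ∑_p Re tr (1 - U_p)` on functions on `G ^ links`.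
At weak coupling the ground state energy of `H` on the gauge invariant functions is, up to
`ε l ^ D` uniformly in the volume, the zero point energy `(n / 2) (D - 1) ∑_k ω(k)` of `n (D - 1)`
free massless fields, `ω(k) = (∑_i 4 sin² (π k_i / l)) ^ (1 / 2)`, so that the vacuum energy density
tends to `(n / 2) (D - 1) ∫_{[0,1]^D} (∑_i 4 sin² (π x_i)) ^ (1 / 2) dx` as `g → 0` and `l → ∞`. Every
normalized smooth function, gauge invariant or not, has at least this energy up to `ε l ^ D`, and if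
its energy is at most `E₀ + δ l ^ D`, then its electric and magnetic energies are both one half of the
zero point energy, up to `ε l ^ D`.
-/

open MeasureTheory Matrix
open scoped ContDiff Matrix.Norms.Frobenius

namespace Pool.Agent.Results.MP_7f377f_mp.VacuumEnergy

set_option linter.unusedSectionVars false

noncomputable section

/-- Complex `N × N` matrices. -/
abbrev Mt (N : ℕ) := Matrix (Fin N) (Fin N) ℂ

/-- The unitary group `U(N)`. -/
abbrev UU (N : ℕ) := Matrix.unitaryGroup (Fin N) ℂ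

/-- The matrix of an element of a subgroup of `U(N)`. -/
def mt {N : ℕ} {G : Subgroup (UU N)} (g : G) : Mt N := ((g : UU N) : Mt N)

/-- Links of the periodic lattice `(ℤ/l)^D`: base point and direction. -/
abbrev Link (D l : ℕ) := (Fin D → ZMod l) × Fin D

/-- Unit vector of the lattice in direction `i`. -/
def unitv {D l : ℕ} (i : Fin D) : Fin D → ZMod l := Pi.single i 1

/-- An orthonormal basis `X` of the Lie algebra of `G`, that is of the real space of all matrices `Y`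
with `exp (t Y) ∈ G` for all real `t`, with the scalar product `Re tr (Y* Z)`; `ex a t` is the
element `exp (t X_a)` of `G`. -/
structure LieBasis {N : ℕ} (G : Subgroup (UU N)) (n : ℕ) where
  X : Fin n → Mt N
  ex : Fin n → ℝ → G
  ex_eq : ∀ a t, mt (ex a t) = NormedSpace.exp (t • X a)
  orth : ∀ a b, (trace ((X a)ᴴ * X b)).re = if a = b then 1 else 0
  full : ∀ Y : Mt N, (∀ t : ℝ, ∃ g : G, mt g = NormedSpace.exp (t • Y)) →
    Y ∈ Submodule.span ℝ (Set.range X)

section

variable {N n D l : ℕ} {G : Subgroup (UU N)}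

/-- The product of the link variables around the plaquette at `x` in the directions `i`, `j`. -/
def plaq (U : Link D l → G) (x : Fin D → ZMod l) (i j : Fin D) : G :=
  U (x, i) * U (x + unitv i, j) * (U (x + unitv j, i))⁻¹ * (U (x, j))⁻¹

/-- The magnetic energy `∑_p Re tr (1 - U_p)`, the sum over the plaquettes. -/
def magnetic [NeZero l] (U : Link D l → G) : ℝ :=
  ∑ x : Fin D → ZMod l, ∑ i : Fin D, ∑ j : Fin D,
    if i < j then (trace (1 - mt (plaq U x i j))).re else 0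

/-- Smooth functions of the link variables: restrictions of smooth functions of the matrices. -/
def IsSmooth [NeZero l] (F : (Link D l → G) → ℝ) : Prop :=
  ∃ f : (Link D l → Mt N) → ℝ, ContDiff ℝ ∞ f ∧ ∀ U, F U = f fun e => mt (U e)

/-- The derivative of `F` at `U` when the variable of the link `e` moves as `exp (t X_a) U_e`. -/
def dlink (B : LieBasis G n) (e : Link D l) (a : Fin n) (F : (Link D l → G) → ℝ)
    (U : Link D l → G) : ℝ :=
  deriv (fun t => F (Function.update U e (B.ex a t * U e))) 0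

/-- The electric energy `(g ^ 2 / 2) ∑_{e, a} ∫ (D_{e, a} F) ^ 2` of a smooth function `F`, `μ`
being the Haar measure. -/
def electricEnergy [NeZero l] [MeasurableSpace G] (B : LieBasis G n) (μ : Measure G) (g : ℝ)
    (F : (Link D l → G) → ℝ) : ℝ :=
  g ^ 2 / 2 * (∑ e : Link D l, ∑ a : Fin n,
    ∫ U, (dlink B e a F U) ^ 2 ∂(Measure.pi fun _ : Link D l => μ))

/-- The magnetic energy `g ^ (-2) ∫ (∑_p Re tr (1 - U_p)) F ^ 2` of a function `F`. -/
def magneticEnergy [NeZero l] [MeasurableSpace G] (μ : Measure G) (g : ℝ)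
    (F : (Link D l → G) → ℝ) : ℝ :=
  1 / g ^ 2 * ∫ U, magnetic U * F U ^ 2 ∂(Measure.pi fun _ : Link D l => μ)

/-- The energy `⟨F, H F⟩` of a smooth function `F`, as a quadratic form. -/
def energy [NeZero l] [MeasurableSpace G] (B : LieBasis G n) (μ : Measure G) (g : ℝ)
    (F : (Link D l → G) → ℝ) : ℝ :=
  electricEnergy B μ g F + magneticEnergy μ g F

/-- Gauge transformation of the link variables. -/
def gauge (γ : (Fin D → ZMod l) → G) (U : Link D l → G) : Link D l → G :=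
  fun e => γ e.1 * U e * (γ (e.1 + unitv e.2))⁻¹

/-- Gauge invariant functions. -/
def GaugeInv (F : (Link D l → G) → ℝ) : Prop := ∀ γ U, F (gauge γ U) = F U

/-- A state: a smooth gauge invariant function of the link variables with `∫ Ψ ^ 2 = 1`. -/
structure IsState [NeZero l] [MeasurableSpace G] (μ : Measure G)
    (Ψ : (Link D l → G) → ℝ) : Prop where
  smooth : IsSmooth Ψ
  inv : GaugeInv Ψ
  norm : ∫ U, Ψ U ^ 2 ∂(Measure.pi fun _ : Link D l => μ) = 1

/-- The ground state energy: the infimum of the energies of the states. -/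
def groundEnergy (D l : ℕ) [NeZero l] [MeasurableSpace G] (B : LieBasis G n) (μ : Measure G)
    (g : ℝ) : ℝ :=
  sInf {E : ℝ | ∃ Ψ : (Link D l → G) → ℝ, IsState μ Ψ ∧ energy B μ g Ψ = E}

/-- The frequency `(∑_i 4 sin² (π k_i / l)) ^ (1 / 2)` of the free massless lattice field. -/
def omega [NeZero l] (k : Fin D → ZMod l) : ℝ :=
  Real.sqrt (∑ i, 4 * Real.sin (Real.pi * (k i).val / l) ^ 2)

/-- The zero point energy `(n / 2) (D - 1) ∑_k ω(k)` of `n (D - 1)` free fields. -/
def zeroPoint (n D l : ℕ) [NeZero l] : ℝ :=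
  (n : ℝ) / 2 * (((D : ℝ) - 1) * ∑ k : Fin D → ZMod l, omega k)

/-- Its density in the infinite volume:
`(n / 2) (D - 1) ∫_{[0,1)^D} (∑_i 4 sin² (π x_i)) ^ (1 / 2) dx`. -/
def zeroPointDensity (n D : ℕ) : ℝ :=
  (n : ℝ) / 2 * (((D : ℝ) - 1) * ∫ x in Set.univ.pi fun _ : Fin D => Set.Ico (0 : ℝ) 1,
    Real.sqrt (∑ i, 4 * Real.sin (Real.pi * x i) ^ 2))

end

open Pool.Agent.H906R3

variable {N n D l : ℕ} {G : Subgroup (UU N)}

/-- The same data in the form used by the helper files. -/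
def fm (B : LieBasis G n) : YM.Frame G n where
  X := B.X
  ex := B.ex
  ex_eq := B.ex_eq
  orth := B.orth
  full := B.full

/-- The abstract data. -/
def ld (B : LieBasis G n) : YM.LD G N n := (fm B).toLD

lemma shift_eq (B : LieBasis G n) (e : Link D l) (a : Fin n) (t : ℝ) (U : Link D l → G) :
    (ld B).shift e a t U = Function.update U e (B.ex a t * U e) := by
  funext e'
  unfold YM.LD.shift
  by_cases h : e' = e
  · subst h
    rw [Pi.mul_apply, Pi.mulSingle_eq_same, Function.update_self]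
    rfl
  · rw [Pi.mul_apply, Pi.mulSingle_eq_of_ne h, one_mul, Function.update_of_ne h]

lemma dlink_eq [NeZero l] (B : LieBasis G n) (e : Link D l) (a : Fin n)
    (F : YM.Sm (ld B) (Link D l)) (U : Link D l → G) :
    dlink B e a F.1 U = ((ld B).Dv (e, a) F).1 U := by
  rw [YM.Dv_apply]
  unfold dlink YM.LD.dF
  simp only [shift_eq]

lemma magnetic_eq [NeZero l] (B : LieBasis G n) (U : Link D l → G) :
    magnetic U = (YM.VT (ld B) D l).1 U := by
  have h1 := YM.VT_apply (L := ld B) U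
  have h2 : (YM.VT (ld B) D l).1 U = (ld B).ev U (YM.VT (ld B) D l) := rfl
  rw [h2, h1]
  have h3 : ∑ p : YM.Pl D l, YM.we (ld B) (YM.plqT U p.1.1 p.1.2.1 p.1.2.2) =
      ∑ p ∈ (Finset.univ.filter fun p : (Fin D → ZMod l) × Fin D × Fin D => p.2.1 < p.2.2),
        YM.we (ld B) (YM.plqT U p.1 p.2.1 p.2.2) := by
    rw [Finset.sum_subtype (p := fun p : (Fin D → ZMod l) × Fin D × Fin D => p.2.1 < p.2.2)]
    intro p; simp
  rw [h3, Finset.sum_filter, Fintype.sum_prod_type]
  unfold magnetic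
  refine Finset.sum_congr rfl fun x _ => ?_
  rw [Fintype.sum_prod_type]
  rfl

lemma inv_iff [NeZero l] (B : LieBasis G n) (u : YM.Sm (ld B) (Link D l)) :
    YM.Inv u ↔ GaugeInv u.1 := by
  constructor
  · intro h γ U
    exact congrArg (fun v : YM.Sm (ld B) (Link D l) => v.1 U) (h γ)
  · intro h γ
    exact YM.ev_ext fun U => h γ U

/-- A Haar probability measure is invariant under right multiplications. -/
lemma right_inv {H : Type*} [Group H] [TopologicalSpace H] [IsTopologicalGroup H]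
    [CompactSpace H] [MeasurableSpace H] [BorelSpace H] (μ : Measure H)
    [IsProbabilityMeasure μ] [μ.IsHaarMeasure] : μ.IsMulRightInvariant := by
  refine ⟨fun g => ?_⟩
  have h1 : IsProbabilityMeasure (Measure.map (fun x => x * g) μ) :=
    Measure.isProbabilityMeasure_map (measurable_mul_const g).aemeasurable
  exact Measure.isHaarMeasure_eq_of_isProbabilityMeasure _ _

section bridge

variable [CompactSpace G] [SecondCountableTopology G] [NeZero l]
  [MeasurableSpace G] [BorelSpace G] (μ : Measure G) [IsProbabilityMeasure μ] [μ.IsHaarMeasure]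
  (B : LieBasis G n) (g : ℝ)

lemma electric_eq (F : YM.Sm (ld B) (Link D l)) : electricEnergy B μ g F.1 =
    g ^ 2 / 2 * (ld B).I μ (YM.Gam (ld B).Dv F F) := by
  · unfold electricEnergy
    congr 1
    unfold YM.Gam
    rw [map_sum]
    refine Eq.trans ?_ (Fintype.sum_prod_type fun j : Link D l × Fin n =>
      (ld B).I μ ((ld B).Dv j F * (ld B).Dv j F)).symm
    refine Finset.sum_congr rfl fun e _ => Finset.sum_congr rfl fun a _ => ?_
    rw [YM.I_apply]
    refine integral_congr_ae (Filter.Eventually.of_forall fun U => ?_)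
    show (dlink B e a F.1 U) ^ 2 = ((ld B).Dv (e, a) F).1 U * ((ld B).Dv (e, a) F).1 U
    rw [dlink_eq, sq]

lemma magE_eq (F : YM.Sm (ld B) (Link D l)) : magneticEnergy μ g F.1 =
    1 / g ^ 2 * (ld B).I μ (YM.VT (ld B) D l * (F * F)) := by
  · unfold magneticEnergy
    congr 1
    rw [YM.I_apply]
    refine integral_congr_ae (Filter.Eventually.of_forall fun U => ?_)
    show magnetic U * F.1 U ^ 2 = (YM.VT (ld B) D l).1 U * (F.1 U * F.1 U)
    rw [magnetic_eq B, sq]

lemma energy_En (F : YM.Sm (ld B) (Link D l)) : energy B μ g F.1 =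
    Pool.Agent.Q205.YM.En μ (ld B) g F := by
  unfold energy Pool.Agent.Q205.YM.En
  rw [electric_eq, magE_eq]

lemma norm_eq (F : YM.Sm (ld B) (Link D l)) :
    ∫ U, F.1 U ^ 2 ∂(Measure.pi fun _ : Link D l => μ) = (ld B).I μ (F * F) := by
  rw [YM.I_apply]
  refine integral_congr_ae (Filter.Eventually.of_forall fun U => ?_)
  show F.1 U ^ 2 = F.1 U * F.1 U
  rw [sq]

lemma energy_nonneg (F : YM.Sm (ld B) (Link D l)) : 0 ≤ energy B μ g F.1 := by
  rw [energy_En]
  unfold Pool.Agent.Q205.YM.En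
  have h2 : 0 ≤ (ld B).I μ (YM.Gam (ld B).Dv F F) := by
    unfold YM.Gam
    rw [map_sum]
    exact Finset.sum_nonneg fun j _ => YM.I_sq_nonneg μ _
  have h3 : 0 ≤ (ld B).I μ (YM.VT (ld B) D l * (F * F)) := YM.I_nonneg μ fun U => by
    rw [map_mul, map_mul, YM.VT_apply]
    exact mul_nonneg (Finset.sum_nonneg fun _ _ => YM.we_nonneg _) (mul_self_nonneg _)
  positivity

lemma energy_nonneg' {F : (Link D l → G) → ℝ} (hF : IsSmooth F) : 0 ≤ energy B μ g F :=
  energy_nonneg μ B g ⟨F, hF⟩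

lemma ground_bdd : BddBelow {E : ℝ | ∃ Ψ : (Link D l → G) → ℝ, IsState μ Ψ ∧
    energy B μ g Ψ = E} := by
  refine ⟨0, ?_⟩
  rintro E ⟨Ψ, hΨ, rfl⟩
  exact energy_nonneg' μ B g hΨ.smooth

lemma ground_nonempty : {E : ℝ | ∃ Ψ : (Link D l → G) → ℝ, IsState μ Ψ ∧
    energy B μ g Ψ = E}.Nonempty := by
  refine ⟨_, fun _ => 1, ⟨⟨fun _ => 1, contDiff_const, fun _ => rfl⟩, fun _ _ => rfl, ?_⟩, rfl⟩
  simp

lemma state_of (u : YM.Sm (ld B) (Link D l)) (hu : YM.Inv u) (h1 : (ld B).I μ (u * u) = 1) :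
    IsState μ u.1 :=
  ⟨u.2, (inv_iff B u).1 hu, by rw [norm_eq]; exact h1⟩

/-- an upper bound by a gauge invariant function -/
lemma ground_le {A : ℝ} (v : YM.Sm (ld B) (Link D l)) (hv : YM.Inv v) (hv0 : ∀ U, 0 < v.1 U)
    (h : Pool.Agent.Q205.YM.En μ (ld B) g v ≤ A * (ld B).I μ (v * v)) :
    groundEnergy D l B μ g ≤ A := by
  have hne : v ≠ 0 := by
    intro h0
    have h1 := hv0 1
    rw [h0] at h1
    exact lt_irrefl _ h1
  have hZ : 0 < (ld B).I μ (v * v) := by
    rcases (YM.I_sq_nonneg μ v).lt_or_eq with h1 | h1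
    · exact h1
    · exact absurd (YM.eq_zero_of_I μ h1.symm) hne
  obtain ⟨Z, hZd⟩ : ∃ Z : ℝ, Z = (ld B).I μ (v * v) := ⟨_, rfl⟩
  rw [← hZd] at hZ h
  obtain ⟨c, hc⟩ : ∃ c : ℝ, c = (Real.sqrt Z)⁻¹ := ⟨_, rfl⟩
  have hc2 : c ^ 2 * Z = 1 := by
    rw [hc, inv_pow, Real.sq_sqrt hZ.le, inv_mul_cancel₀ hZ.ne']
  have hn1 : (ld B).I μ (c • v * (c • v)) = 1 := by
    rw [smul_mul_assoc, mul_smul_comm, map_smul, map_smul, smul_eq_mul, smul_eq_mul, ← hZd,
      ← hc2]
    ring
  have h1 : groundEnergy D l B μ g ≤ energy B μ g (c • v).1 :=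
    csInf_le (ground_bdd μ B g) ⟨_, state_of μ B (c • v) (hv.smul c) hn1, rfl⟩
  have h2 : Pool.Agent.Q205.YM.En μ (ld B) g (c • v) =
      c ^ 2 * Pool.Agent.Q205.YM.En μ (ld B) g v := by
    unfold Pool.Agent.Q205.YM.En
    have e1 : YM.Gam (ld B).Dv (c • v) (c • v) = (c ^ 2) • YM.Gam (ld B).Dv v v := by
      rw [YM.Gam_smul, YM.Gam_comm, YM.Gam_smul, smul_smul, sq]
    have e2 : YM.VT (ld B) D l * (c • v * (c • v)) = (c ^ 2) • (YM.VT (ld B) D l * (v * v)) := by
      rw [smul_mul_smul_comm, mul_smul_comm, sq]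
    rw [e1, e2, map_smul, map_smul, smul_eq_mul, smul_eq_mul]
    ring
  rw [energy_En, h2] at h1
  have h3 := mul_le_mul_of_nonneg_left h (sq_nonneg c)
  have h4 : c ^ 2 * (A * Z) = A := by
    calc c ^ 2 * (A * Z) = A * (c ^ 2 * Z) := by ring
      _ = A := by rw [hc2, mul_one]
  linarith

end bridge

lemma zeroPoint_eq (n D l : ℕ) [NeZero l] :
    zeroPoint n D l = Pool.Agent.Q205.YM.e0 n D l := by
  unfold zeroPoint Pool.Agent.Q205.YM.e0
  congr 2
  refine Finset.sum_congr rfl fun k _ => ?_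
  unfold omega Pool.Agent.Q205.YM.om Pool.Agent.Q205.YM.om2
  congr 1
  exact Finset.sum_congr rfl fun i _ => (Pool.Agent.Q205.YM.ch_single k i).symm

lemma zeroPoint_density (n D : ℕ) {ε : ℝ} (hε : 0 < ε) : ∃ L : ℕ, ∀ (l : ℕ) [NeZero l], L ≤ l →
    |zeroPoint n D l - zeroPointDensity n D * (l : ℝ) ^ D| ≤ ε * (l : ℝ) ^ D := by
  have hc : Continuous fun x : Fin D → ℝ => Real.sqrt (∑ i, 4 * Real.sin (Real.pi * x i) ^ 2) := by
    fun_prop
  obtain ⟨K, hK⟩ : ∃ K : ℝ, K = |(n : ℝ) / 2 * ((D : ℝ) - 1)| + 1 := ⟨_, rfl⟩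
  have hK0 : 0 < K := by rw [hK]; positivity
  obtain ⟨L, hL⟩ := Pool.Agent.Q205.YM.riemann D hc (show 0 < ε / K by positivity)
  refine ⟨L, fun l _ hl => ?_⟩
  have h1 := hL l hl
  have h2 : ∑ k : Fin D → ZMod l, Real.sqrt (∑ i, 4 * Real.sin (Real.pi *
      Pool.Agent.Q205.YM.pt D l k i) ^ 2) = ∑ k : Fin D → ZMod l, omega k := by
    refine Finset.sum_congr rfl fun k _ => ?_
    unfold omega Pool.Agent.Q205.YM.pt
    simp only [mul_div_assoc]
  rw [h2] at h1
  have h3 : zeroPoint n D l - zeroPointDensity n D * (l : ℝ) ^ D =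
      ((n : ℝ) / 2 * ((D : ℝ) - 1)) * (∑ k : Fin D → ZMod l, omega k -
        (∫ x in Pool.Agent.Q205.YM.cube D,
          Real.sqrt (∑ i, 4 * Real.sin (Real.pi * x i) ^ 2)) * (l : ℝ) ^ D) := by
    unfold zeroPoint zeroPointDensity Pool.Agent.Q205.YM.cube
    ring
  rw [h3, abs_mul]
  have h4 : |(n : ℝ) / 2 * ((D : ℝ) - 1)| ≤ K := by rw [hK]; linarith
  refine (mul_le_mul h4 h1 (abs_nonneg _) hK0.le).trans (le_of_eq ?_)
  field_simp

theorem result {N n D : ℕ} (G : Subgroup (UU N)) (hG : IsClosed (G : Set (UU N)))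
    [MeasurableSpace G] [BorelSpace G] (μ : Measure G) [IsProbabilityMeasure μ] [μ.IsHaarMeasure]
    (B : LieBasis G n) (ε : ℝ) (hε : 0 < ε) :
    ∃ g₀ : ℝ, 0 < g₀ ∧ ∃ L : ℕ, ∃ δ : ℝ, 0 < δ ∧ ∀ g : ℝ, 0 < g → g < g₀ →
      ∀ (l : ℕ) [NeZero l], L ≤ l →
      |groundEnergy D l B μ g - zeroPoint n D l| ≤ ε * (l : ℝ) ^ D ∧
      |groundEnergy D l B μ g / (l : ℝ) ^ D - zeroPointDensity n D| ≤ ε ∧
      ∀ F : (Link D l → G) → ℝ, IsSmooth F →
        ∫ U, F U ^ 2 ∂(Measure.pi fun _ : Link D l => μ) = 1 →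
        zeroPoint n D l - ε * (l : ℝ) ^ D ≤ energy B μ g F ∧
        (energy B μ g F ≤ groundEnergy D l B μ g + δ * (l : ℝ) ^ D →
          |electricEnergy B μ g F - zeroPoint n D l / 2| ≤ ε * (l : ℝ) ^ D ∧
          |magneticEnergy μ g F - zeroPoint n D l / 2| ≤ ε * (l : ℝ) ^ D) := by
  have : CompactSpace G := by
    have h1 : IsCompact (G : Set (UU N)) := hG.isCompact
    exact isCompact_iff_compactSpace.1 h1
  have h00 : SecondCountableTopology (UU N) := TopologicalSpace.Subtype.secondCountableTopology _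
  have : SecondCountableTopology G := TopologicalSpace.Subtype.secondCountableTopology _
  have : μ.IsMulRightInvariant := right_inv μ
  obtain ⟨C, hC, hQ⟩ := Pool.Agent.TH369.WL.sub_quad hG (fm B)
  have hQ' : ∀ g : G, ‖Pool.Agent.TH369.WL.Qp (ld B).X ((ld B).rho g - 1)‖ ≤
      C * ‖(ld B).rho g - 1‖ ^ 2 := hQ
  obtain ⟨h1, hh1, L1, δ, hδ, heq⟩ := Pool.Agent.Q205.YM.equip μ (ld B) hC.le hQ' D hε
  obtain ⟨ε', hε'⟩ : ∃ x : ℝ, x = min (ε / 2) (δ / 2) := ⟨_, rfl⟩
  have hε'0 : 0 < ε' := by rw [hε']; exact lt_min (by positivity) (by positivity)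
  have hε'1 : ε' ≤ ε / 2 := by rw [hε']; exact min_le_left _ _
  have hε'2 : ε' ≤ δ / 2 := by rw [hε']; exact min_le_right _ _
  obtain ⟨h2, hh2, L2, htot⟩ := Pool.Agent.Q205.YM.tot μ (ld B) hC.le hQ' D hε'0
  obtain ⟨L3, hL3⟩ := zeroPoint_density n D (show 0 < ε / 2 by positivity)
  refine ⟨Real.sqrt (min h1 h2), Real.sqrt_pos.2 (lt_min hh1 hh2), max (max L1 L2) L3, δ / 2,
    by positivity, ?_⟩
  intro g hg hgg l _ hl
  have hg2 : g ^ 2 ≤ min h1 h2 := by
    have e1 := pow_le_pow_left₀ hg.le hgg.le 2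
    rwa [Real.sq_sqrt (lt_min hh1 hh2).le] at e1
  have hX : (0 : ℝ) ≤ (l : ℝ) ^ D := by positivity
  obtain ⟨hlow, v, hv, hv0, hup⟩ := htot g hg (hg2.trans (min_le_right _ _)) l
    ((le_max_right _ _).trans ((le_max_left _ _).trans hl))
  have hz : (n : ℝ) / 2 * (((D : ℝ) - 1) * ∑ k : Pool.Agent.Q205.YM.Si D l,
    Pool.Agent.Q205.YM.om k) = zeroPoint n D l := (zeroPoint_eq n D l).symm
  rw [hz] at hup
  simp only [hz] at hlow
  have hup' := ground_le μ B g v hv hv0 hup
  have hlow' : ∀ F : YM.Sm (ld B) (Link D l), (ld B).I μ (F * F) = 1 →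
      zeroPoint n D l - ε' * (l : ℝ) ^ D ≤ energy B μ g F.1 := by
    intro F hF
    have h3 := hlow F
    rw [hF, mul_one] at h3
    rw [energy_En]
    exact h3
  have hεX := mul_le_mul_of_nonneg_right hε'1 hX
  have hεX0 : 0 ≤ ε * (l : ℝ) ^ D := mul_nonneg hε.le hX
  have hδX := mul_le_mul_of_nonneg_right hε'2 hX
  have hmain : |groundEnergy D l B μ g - zeroPoint n D l| ≤ ε / 2 * (l : ℝ) ^ D := by
    rw [abs_le]
    constructor
    · have h3 : zeroPoint n D l - ε' * (l : ℝ) ^ D ≤ groundEnergy D l B μ g := by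
        refine le_csInf (ground_nonempty μ B g) ?_
        rintro E ⟨Ψ, hΨ, rfl⟩
        have h4 : (ld B).I μ ((⟨Ψ, hΨ.smooth⟩ : YM.Sm (ld B) (Link D l)) *
            ⟨Ψ, hΨ.smooth⟩) = 1 := by
          rw [← norm_eq]; exact hΨ.norm
        exact hlow' ⟨Ψ, hΨ.smooth⟩ h4
      linarith
    · linarith
  refine ⟨hmain.trans (mul_le_mul_of_nonneg_right (by linarith) hX), ?_, ?_⟩
  · have hl0 : (0 : ℝ) < l := by
      have := NeZero.pos l
      exact_mod_cast this
    have hlD : (0 : ℝ) < (l : ℝ) ^ D := by positivity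
    have h3 := hL3 l ((le_max_right _ _).trans hl)
    have h4 : groundEnergy D l B μ g / (l : ℝ) ^ D - zeroPointDensity n D =
        (groundEnergy D l B μ g - zeroPointDensity n D * (l : ℝ) ^ D) / (l : ℝ) ^ D := by
      rw [sub_div, mul_div_assoc, div_self hlD.ne', mul_one]
    rw [h4, abs_div, abs_of_pos hlD, div_le_iff₀ hlD]
    rw [abs_le] at hmain h3 ⊢
    constructor <;> linarith [hmain.1, hmain.2, h3.1, h3.2]
  · intro F hF hF1
    have h4 : (ld B).I μ ((⟨F, hF⟩ : YM.Sm (ld B) (Link D l)) * ⟨F, hF⟩) = 1 := by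
      rw [← norm_eq]; exact hF1
    have h5 : energy B μ g F = Pool.Agent.Q205.YM.En μ (ld B) g ⟨F, hF⟩ :=
      energy_En μ B g ⟨F, hF⟩
    refine ⟨?_, fun hE => ?_⟩
    · have h6 : zeroPoint n D l - ε' * (l : ℝ) ^ D ≤ energy B μ g F := hlow' ⟨F, hF⟩ h4
      linarith
    · have h6 := heq g hg (hg2.trans (min_le_left _ _)) l
        ((le_max_left _ _).trans ((le_max_left _ _).trans hl))
        ⟨F, hF⟩ h4 (by rw [← h5, ← zeroPoint_eq]; linarith)
      rw [← zeroPoint_eq] at h6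
      have h7 := electric_eq μ B g ⟨F, hF⟩
      have h8 := magE_eq μ B g ⟨F, hF⟩
      rw [← h7, ← h8] at h6
      exact h6

end

end Pool.Agent.Results.MP_7f377f_mp.VacuumEnergy
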